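import Mathlib

/-!
# Frey's inequality in every algebraic family: definitions

A member is a symmetric `r × r` matrix `N` with entries in `ℤ[x, y]`. The curve is `det N = 0`,
with the double cover on which `adjugate N = w * wᵀ`, and the forms are `(q · w) dx / F_y`. The
hermitian form of two of them only depends on `adjugate N`.
-/

namespace Pool.Agent.EVF

open MvPolynomial MeasureTheory Matrix
open scoped ComplexOrder

/-- matrices with entries in `ℤ[x, y]` -/
abbrev Mat (r : ℕ) : Type := Matrix (Fin r) (Fin r) (MvPolynomial (Fin 2) ℤ)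

/-- vectors with entries in `ℤ[x, y]` -/
abbrev Vec (r : ℕ) : Type := Fin r → MvPolynomial (Fin 2) ℤ

/-- The numerical data: degrees `u, v` of `x, y`, twice the degrees `D i`, weights `α, β` of
`x, y`, half weights `m i` of the rows. -/
structure Shape (r : ℕ) where
  u : ℕ
  v : ℕ
  D : Fin r → ℕ
  α : ℕ
  β : ℕ
  m : Fin r → ℕ

/-- the degree of the curve -/
def Shape.deg {r : ℕ} (s : Shape r) : ℕ := ∑ i, s.D i

/-- the weight of the determinant is `2 * s.wt` -/
def Shape.wt {r : ℕ} (s : Shape r) : ℕ := ∑ i, s.m i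

/-- The conditions on the numerical data. -/
structure Shape.Good {r : ℕ} (s : Shape r) : Prop where
  u_pos : 0 < s.u
  v_pos : 0 < s.v
  parity : ∀ i, Even (s.deg + s.D i)
  small : ∀ i, s.deg < s.D i + 2 * (s.u + s.v + 1)
  dvd : s.v ∣ s.deg
  lt : s.v < s.deg

/-- the curve `det N = 0` -/
noncomputable def F {r : ℕ} (N : Mat r) : MvPolynomial (Fin 2) ℤ := N.det

/-- value of `adjugate N` at the point `(x, y)` -/
noncomputable def adj {r : ℕ} (N : Mat r) (z : Fin 2 → ℂ) : Matrix (Fin r) (Fin r) ℂ :=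
  N.adjugate.map (aeval z)

/-- the Hilbert-Schmidt norm -/
noncomputable def hs {r : ℕ} (A : Matrix (Fin r) (Fin r) ℂ) : ℝ :=
  Real.sqrt (∑ i, ∑ j, ‖A i j‖ ^ 2)

/-- The hermitian form `(A q) · conj (A q') / |A|`, where `A = adjugate N`. If `A = w * wᵀ` this
is `(q · w) * conj (q' · w)`. -/
noncomputable def form {r : ℕ} (N : Mat r) (q q' : Vec r) (z : Fin 2 → ℂ) : ℂ :=
  ((adj N z *ᵥ fun i => aeval z (q i)) ⬝ᵥ star (adj N z *ᵥ fun i => aeval z (q' i))) /
    ((hs (adj N z) : ℝ) : ℂ)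

/-- The integrand of the Gram matrix: the sum over the points of the curve above `x`. -/
noncomputable def kernel {r : ℕ} (N : Mat r) (q q' : Vec r) (x : ℂ) : ℂ :=
  ∑ᶠ y ∈ {y : ℂ | aeval ![x, y] (F N) = 0},
    form N q q' ![x, y] / ((‖aeval ![x, y] (pderiv 1 (F N))‖ ^ 2 : ℝ) : ℂ)

/-- The lattice of the integral forms with finite norm. -/
def Hol {r : ℕ} (s : Shape r) (N : Mat r) : Set (Vec r) :=
  {q | (∀ i, ∀ e ∈ (q i).support, 2 * (s.u * (e 0 + 1) + s.v * (e 1 + 1)) < s.deg + s.D i) ∧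
    Integrable (kernel N q q)}

/-- `b` is a basis of the set `S` of vectors over the integers. -/
def IsZBasis {r n : ℕ} (b : Fin n → Vec r) (S : Set (Vec r)) : Prop :=
  LinearIndependent ℤ b ∧ ∀ q, q ∈ S ↔ q ∈ Submodule.span ℤ (Set.range b)

/-- the Gram matrix -/
noncomputable def gram {r n : ℕ} (N : Mat r) (b : Fin n → Vec r) : Matrix (Fin n) (Fin n) ℂ :=
  Matrix.of fun i j => ∫ x : ℂ, kernel N (b i) (b j) x

/-- the height -/
noncomputable def hW {r n : ℕ} (N : Mat r) (b : Fin n → Vec r) : ℝ :=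
  -(1 / 2) * Real.log (gram N b).det.re

/-- The odd prime `p` is a node prime: over an algebraic closure of the field with `p` elements
the curve has a nondegenerate singular point `z` at which `qᵀ * adjugate N * q` does not vanish
for a `q` in the lattice `Hol`. -/
def NodePrime {r : ℕ} (s : Shape r) (N : Mat r) (p : ℕ) : Prop :=
  p ≠ 2 ∧ ∃ hp : p.Prime, haveI : Fact p.Prime := ⟨hp⟩
    ∃ z : Fin 2 → AlgebraicClosure (ZMod p),
      aeval z (F N) = 0 ∧ aeval z (pderiv 0 (F N)) = 0 ∧ aeval z (pderiv 1 (F N)) = 0 ∧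
      aeval z (pderiv 0 (pderiv 0 (F N)) * pderiv 1 (pderiv 1 (F N)) -
        pderiv 0 (pderiv 1 (F N)) ^ 2) ≠ 0 ∧
      ∃ q ∈ Hol s N, aeval z (q ⬝ᵥ (N.adjugate *ᵥ q)) ≠ 0

/-- Over the complex numbers the equation has full degree in `y` and no multiple factor. -/
def Reduced {r : ℕ} (s : Shape r) (N : Mat r) : Prop :=
  ∃ x : ℂ, {y : ℂ | aeval ![x, y] (F N) = 0}.ncard = s.deg / s.v

/-- Frey's inequality with the constant `c n`, where `n` is the rank of the lattice `Hol`: the
curve is reduced, the Gram matrix converges and is positive definite, and the height is at most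
`c n` times the logarithm of a product of distinct node primes. -/
def FreyHolds {r : ℕ} (s : Shape r) (c : ℕ → ℝ) (N : Mat r) : Prop :=
  Reduced s N ∧ ∃ (n : ℕ) (b : Fin n → Vec r), IsZBasis b (Hol s N) ∧
    (∀ i j, Integrable (kernel N (b i) (b j))) ∧ (gram N b).PosDef ∧
    ∃ P : Finset ℕ, (∀ p ∈ P, NodePrime s N p) ∧
      hW N b ≤ c n * Real.log ((∏ p ∈ P, p : ℕ) : ℝ)

/-- The monomials of the forms: `x = (i, a, b)` stands for `x ^ a y ^ b` in the row `i`. -/
def Shape.Slot {r : ℕ} (s : Shape r) (x : Fin r × ℕ × ℕ) : Prop :=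
  2 * (s.u * (x.2.1 + 1) + s.v * (x.2.2 + 1)) < s.deg + s.D x.1

/-- The weight of the monomial `x ^ a y ^ b` in the row `i`. -/
def Shape.omega {r : ℕ} (s : Shape r) (x : Fin r × ℕ × ℕ) : ℝ :=
  (s.wt : ℝ) + s.m x.1 - s.α * (x.2.1 + 1) - s.β * (x.2.2 + 1)

/-! ### Families -/

/-- matrices with entries in `ℤ[t][x, y]` -/
abbrev FMat (k r : ℕ) : Type :=
  Matrix (Fin r) (Fin r) (MvPolynomial (Fin 2) (MvPolynomial (Fin k) ℤ))

/-- vectors with entries in `ℤ[t][x, y]` -/
abbrev FVec (k r : ℕ) : Type := Fin r → MvPolynomial (Fin 2) (MvPolynomial (Fin k) ℤ)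

/-- the member at `t` -/
noncomputable def spec {k r : ℕ} (M : FMat k r) (t : Fin k → ℤ) : Mat r :=
  M.map (MvPolynomial.map (eval t))

/-- the vector at `t` -/
noncomputable def specv {k r : ℕ} (q : FVec k r) (t : Fin k → ℤ) : Vec r :=
  fun i => MvPolynomial.map (eval t) (q i)

/-- value at the complex parameter `t` and the complex point `z` -/
noncomputable def val {k : ℕ} (G : MvPolynomial (Fin 2) (MvPolynomial (Fin k) ℤ))
    (t : Fin k → ℂ) (z : Fin 2 → ℂ) : ℂ :=
  eval₂ (aeval t : MvPolynomial (Fin k) ℤ →ₐ[ℤ] ℂ).toRingHom z G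

/-- The family has the given shape: `M` is symmetric, the entry `(i, j)` has degree at most
`(D i + D j) / 2` in `(x, y)` and weight at most `m i + m j`, where the parameter `t_l` has the
weight `W l`. -/
structure FamShape {k r : ℕ} (s : Shape r) (W : Fin k → ℕ) (M : FMat k r) : Prop where
  symm : ∀ i j, M i j = M j i
  deg : ∀ i j, ∀ e ∈ (M i j).support, 2 * (s.u * e 0 + s.v * e 1) ≤ s.D i + s.D j
  weight : ∀ i j, ∀ e ∈ (M i j).support, ∀ a ∈ (coeff e (M i j)).support,
    (∑ l, W l * a l) + s.α * e 0 + s.β * e 1 ≤ s.m i + s.m j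

/-- the exponent of `y ^ (deg / v)` -/
noncomputable def topE {r : ℕ} (s : Shape r) : Fin 2 →₀ ℕ := Finsupp.single 1 (s.deg / s.v)

/-- The coefficient of `y ^ (deg / v)` in the equation has the full weight. -/
def TopWeight {k r : ℕ} (s : Shape r) (W : Fin k → ℕ) (M : FMat k r) : Prop :=
  ∃ a ∈ (coeff (topE s) M.det).support, (∑ l, W l * a l) + s.β * (s.deg / s.v) = 2 * s.wt

/-- The complex point `z₀` is a nondegenerate singular point of the curve at the complex
parameter `t₀`, and `qᵀ * adjugate M * q` does not vanish there. -/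
def NodeAt {k r : ℕ} (M : FMat k r) (q : FVec k r) (t₀ : Fin k → ℂ) (z₀ : Fin 2 → ℂ) : Prop :=
  val M.det t₀ z₀ = 0 ∧ val (pderiv 0 M.det) t₀ z₀ = 0 ∧ val (pderiv 1 M.det) t₀ z₀ = 0 ∧
    val (pderiv 0 (pderiv 0 M.det) * pderiv 1 (pderiv 1 M.det) -
      pderiv 0 (pderiv 1 M.det) ^ 2) t₀ z₀ ≠ 0 ∧
    val (q ⬝ᵥ (M.adjugate *ᵥ q)) t₀ z₀ ≠ 0

/-- The polynomial `φ` in the parameters is nodal for the family: for some complex point `t₀`
whose vanishing polynomials are exactly the multiples of `φ` (a generic zero of `φ`), the curve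
at `t₀` has a nondegenerate singular point at which `qᵀ * adjugate M * q` does not vanish, for a
vector `q` whose specialisation has finite norm for all integral parameters outside the
hypersurface `ψ = 0`. -/
def Nodal {k r : ℕ} (s : Shape r) (M : FMat k r) (φ : MvPolynomial (Fin k) ℤ) : Prop :=
  ∃ (t₀ : Fin k → ℂ) (z₀ : Fin 2 → ℂ) (q : FVec k r) (ψ : MvPolynomial (Fin k) ℤ),
    (∀ P : MvPolynomial (Fin k) ℤ, aeval t₀ P = 0 ↔ φ ∣ P) ∧ NodeAt M q t₀ z₀ ∧
    ψ ≠ 0 ∧ ∀ t : Fin k → ℤ, eval t ψ ≠ 0 → specv q t ∈ Hol s (spec M t)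

/-! ### Families over the projective line -/

/-- The entries of `M` are homogeneous: the coefficients are binary forms in the parameters, and
the weights are exactly `m i + m j`, where both parameters have the weight `W`. -/
def FamHom {r : ℕ} (s : Shape r) (W : ℕ) (M : FMat 2 r) : Prop :=
  ∀ i j, ∀ e ∈ (M i j).support, ∀ a ∈ (coeff e (M i j)).support,
    W * (a 0 + a 1) + s.α * e 0 + s.β * e 1 = s.m i + s.m j

/-- The vector `q` is homogeneous. -/
def VecHom {r : ℕ} (s : Shape r) (W : ℕ) (q : FVec 2 r) : Prop :=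
  ∃ c : ℤ, ∀ i, ∀ e ∈ (q i).support, ∀ a ∈ (coeff e (q i)).support,
    ((W * (a 0 + a 1) + s.α * e 0 + s.β * e 1 : ℕ) : ℤ) = c + s.m i

/-- The binary form `φ` is nodal for the family: at a zero `t₀` of `φ` the curve has a
nondegenerate singular point at which `qᵀ * adjugate M * q` does not vanish, for a homogeneous
vector `q` whose specialisation has finite norm for all but finitely many coprime parameters. -/
def NodalForm {r : ℕ} (s : Shape r) (W : ℕ) (M : FMat 2 r) (φ : MvPolynomial (Fin 2) ℤ) : Prop :=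
  ∃ (t₀ : Fin 2 → ℂ) (z₀ : Fin 2 → ℂ) (q : FVec 2 r), t₀ ≠ 0 ∧ aeval t₀ φ = 0 ∧
    NodeAt M q t₀ z₀ ∧ VecHom s W q ∧
    {t : Fin 2 → ℤ | IsCoprime (t 0) (t 1) ∧ specv q t ∉ Hol s (spec M t)}.Finite

end Pool.Agent.EVF
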