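import Pool.Agent.EVF.Defs

/-!
# Frey's inequality in every algebraic family: the sharp form

The weight of the form `x ^ a y ^ b w_i dx / F_y` is
`ω(i, a, b) = wt + m i - α (a + 1) - β (b + 1)`. In the sharp form the constant `n τ` is replaced by
the sum of `n` different weights.
-/

set_option autoImplicit false

namespace Pool.Agent.EVF

open MvPolynomial MeasureTheory Matrix
open scoped ComplexOrder

/-- The monomial `x ^ a y ^ b` occurs in the `i`-th coordinate of the forms, `c = (i, a, b)`. -/
def Shape.Adm {r : ℕ} (s : Shape r) (c : Fin r × ℕ × ℕ) : Prop :=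
  2 * (s.u * (c.2.1 + 1) + s.v * (c.2.2 + 1)) < s.deg + s.D c.1

/-- The weight of the form with the exponents `(a, b)` in the coordinate `i`, `c = (i, a, b)`. -/
def Shape.om {r : ℕ} (s : Shape r) (c : Fin r × ℕ × ℕ) : ℝ :=
  (s.wt : ℝ) + s.m c.1 - s.α * (c.2.1 + 1) - s.β * (c.2.2 + 1)

/-- All the weights of the forms are positive. -/
def Shape.Pos {r : ℕ} (s : Shape r) : Prop :=
  ∀ c : Fin r × ℕ × ℕ, s.Adm c → s.α * (c.2.1 + 1) + s.β * (c.2.2 + 1) < s.wt + s.m c.1

/-- Frey's inequality with the constant `κ ω`, where `ω` is the sum of `n` different weights of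
forms and `n` is the rank of the lattice `Hol`: the curve is reduced, the Gram matrix converges and
is positive definite, and the height is at most `κ ω` times the logarithm of a product of distinct
node primes. -/
def FreySharp {r : ℕ} (s : Shape r) (κ : ℝ) (N : Mat r) : Prop :=
  Reduced s N ∧ ∃ (n : ℕ) (b : Fin n → Vec r), IsZBasis b (Hol s N) ∧
    (∀ i j, Integrable (kernel N (b i) (b j))) ∧ (gram N b).PosDef ∧
    ∃ (P : Finset ℕ) (I : Finset (Fin r × ℕ × ℕ)), (∀ p ∈ P, NodePrime s N p) ∧
      I.card = n ∧ (∀ c ∈ I, s.Adm c) ∧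
      hW N b ≤ κ * (∑ c ∈ I, s.om c) * Real.log ((∏ p ∈ P, p : ℕ) : ℝ)

end Pool.Agent.EVF
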