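import Pool.Agent.EVF.Defs
import Pool.Agent.Helper5_Frey.Rankin

/-!
# Statements S: spreading of nodes, elimination, reducedness, values with a small radical
-/

namespace Pool.Agent.EVF

open MvPolynomial Matrix

/-! ## Values over an arbitrary ring -/

/-- value at the parameters `t` and the point `z`, over any commutative ring -/
noncomputable def ev {k : ℕ} {Ω : Type} [CommRing Ω]
    (G : MvPolynomial (Fin 2) (MvPolynomial (Fin k) ℤ)) (t : Fin k → Ω) (z : Fin 2 → Ω) : Ω :=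
  eval₂ (aeval t : MvPolynomial (Fin k) ℤ →ₐ[ℤ] Ω).toRingHom z G

/-- `NodeAt` over an arbitrary field -/
def NodeOver {k r : ℕ} {Ω : Type} [Field Ω] (M : FMat k r) (q : FVec k r) (t : Fin k → Ω)
    (z : Fin 2 → Ω) : Prop :=
  ev M.det t z = 0 ∧ ev (pderiv 0 M.det) t z = 0 ∧ ev (pderiv 1 M.det) t z = 0 ∧
    ev (pderiv 0 (pderiv 0 M.det) * pderiv 1 (pderiv 1 M.det) -
      pderiv 0 (pderiv 1 M.det) ^ 2) t z ≠ 0 ∧
    ev (q ⬝ᵥ (M.adjugate *ᵥ q)) t z ≠ 0

/-- the curve at the complex parameter `t` is reduced of full degree in `y` -/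
def RedAt {k r : ℕ} (s : Shape r) (M : FMat k r) (t : Fin k → ℂ) : Prop :=
  ∃ x : ℂ, {y : ℂ | ev M.det t ![x, y] = 0}.ncard = s.deg / s.v

/-! ## Spreading -/

/-- SPZ. A common zero spreads. Proof: `K` an algebraic closure of `Frac S`. If the system
`G, 1 - s * D` (one more variable `s`) had no zero in `K`, then
`Pool.Agent.Helper5Plane.spread` gives `0 ≠ M : S` in the ideal; evaluate at the point
`(z, (D z)⁻¹)` over `L`: `j M = 0`, against injectivity. So there is a zero `(z, s)` over `K`;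
`exists_integral_multiples` gives `d ≠ 0` in `S` such that `z i`, `s` are integral over
`A = S[1/d]`; `C` = integral closure of `A` in `K`; `ε` extends to `A` (localisation), then to `C`
(lying over, quotient by the primes, `IsAlgClosed.lift`). -/
def SpzStmt : Prop := ∀ (S : Type) [CommRing S] [IsDomain S] (L : Type) [Field L] (j : S →+* L),
  Function.Injective j → ∀ (G : Set (MvPolynomial (Fin 2) S)) (D : MvPolynomial (Fin 2) S)
  (z : Fin 2 → L), (∀ g ∈ G, eval₂ j z g = 0) → eval₂ j z D ≠ 0 →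
  ∃ d : S, d ≠ 0 ∧ ∀ (Ω : Type) [Field Ω] [IsAlgClosed Ω] (ε : S →+* Ω), ε d ≠ 0 →
    ∃ y : Fin 2 → Ω, (∀ g ∈ G, eval₂ ε y g = 0) ∧ eval₂ ε y D ≠ 0

/-- SPN. A node spreads (uses SPZ). Proof: apply SPZ to the images of the five polynomials under
`MvPolynomial.map (aeval τ)` (`eval₂_map`, and the composite of `aeval τ` with a homomorphism
`h` is `aeval (h ∘ τ)`); `D` = product of the Hessian and of `qᵀ adj q`. -/
def SpnStmt : Prop := ∀ (k r : ℕ) (M : FMat k r) (q : FVec k r) (S : Type) [CommRing S]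
  [IsDomain S] (L : Type) [Field L] (j : S →+* L), Function.Injective j → ∀ (τ : Fin k → S)
  (z : Fin 2 → L), NodeOver M q (fun l => j (τ l)) z →
  ∃ d : S, d ≠ 0 ∧ ∀ (Ω : Type) [Field Ω] [IsAlgClosed Ω] (ε : S →+* Ω), ε d ≠ 0 →
    ∃ y : Fin 2 → Ω, NodeOver M q (fun l => ε (τ l)) y

/-- NOP. A node modulo `p` of a member is a node prime. Proof: for `G` in `ℤ[t][x,y]`,
`ev G (t mod p) z = aeval z (MvPolynomial.map (eval t) G)` (`aeval_map_algebraMap`, `eval₂_map`,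
both ring homomorphisms `ℤ[t] → Ω` send `t_l` to `t l`); `F (spec M t) = map (eval t) M.det`
(`RingHom.map_det`), `adjugate` commutes with ring homomorphisms (`RingHom.map_adjugate`),
`pderiv` commutes with `MvPolynomial.map` (`pderiv_map`). -/
def NopStmt : Prop := ∀ (k r : ℕ) (s : Shape r) (M : FMat k r) (q : FVec k r) (t : Fin k → ℤ)
  (p : ℕ) [Fact p.Prime] (z : Fin 2 → AlgebraicClosure (ZMod p)), p ≠ 2 →
  NodeOver M q (fun l => ((t l : ℤ) : AlgebraicClosure (ZMod p))) z →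
  specv q t ∈ Hol s (spec M t) → NodePrime s (spec M t) p

/-- SPF. Node primes in a family with `k` parameters (uses SPN, NOP). Proof: `Nodal` gives
`t₀, z₀, q, ψ`. Let `S = ℤ[t] / (φ)`; `aeval t₀` factors through an injective homomorphism
`j : S → ℂ` (the first condition of `Nodal`), so `S` is a domain. SPN with `τ l` = the class of
`t_l` gives `d`; let `χ` be a polynomial with class `d`, so `φ` does not divide `χ`. If
`p ∣ φ(t)`, `p ∤ χ(t)`, then evaluation at `t` modulo `p` is a homomorphism `ε` from `S` to the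
algebraic closure of the field with `p` elements with `ε d ≠ 0`. Then NOP. -/
def SpfStmt : Prop := ∀ (k r : ℕ) (s : Shape r) (M : FMat k r) (φ : MvPolynomial (Fin k) ℤ),
  Nodal s M φ → ∃ χ ψ : MvPolynomial (Fin k) ℤ, ¬ φ ∣ χ ∧ ψ ≠ 0 ∧ ∀ t : Fin k → ℤ,
    eval t ψ ≠ 0 → ∀ p : ℕ, p.Prime → p ≠ 2 → (p : ℤ) ∣ eval t φ → ¬ (p : ℤ) ∣ eval t χ →
      NodePrime s (spec M t) p

/-! ## Homogeneous families -/

/-- SCL. Scaling of nodes. Proof: let `G_t` be the image of `G` in `Ω[x,y]` and `θ` the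
substitution `x ↦ μ^α x`, `y ↦ μ^β y`. By `FamHom`, coefficient by coefficient,
`θ ((M i j) at μ^W t) = μ^(m i + m j) (M i j) at t` in `Ω[x,y]`; take determinants
(`det (D N D) = μ^(2 wt) det N` with `D = diag (μ^(m i))`) and derivatives
(`pderiv 0 (θ f) = μ^α θ (pderiv 0 f)`), so the first four conditions are multiplied by powers of
`μ`; `adjugate (D N D) = det D ^ 2 * D⁻¹ adj N D⁻¹` and `VecHom` give the last one. -/
def SclStmt : Prop := ∀ (r : ℕ) (s : Shape r) (W : ℕ) (M : FMat 2 r) (q : FVec 2 r),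
  FamHom s W M → VecHom s W q → ∀ (Ω : Type) [Field Ω] (μ : Ω), μ ≠ 0 → ∀ (t z : Fin 2 → Ω),
    NodeOver M q t z →
    NodeOver M q (fun l => μ ^ W * t l) ![μ ^ s.α * z 0, μ ^ s.β * z 1]

/-- PRJ. The ring of a zero of a binary form. Proof: if `φ(X,1)` has positive degree (then it is
irreducible in `ℤ[X]`, and its leading coefficient `c = φ(1,0)` is not zero because `φ` is not
divisible by the second variable) take `S = ℤ[X] / (φ(X,1))`, `τ = (X, 1)`, `K₁ = |c|`;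
`t 0 ≠ 0, t 1 ≠ 0`: a complex zero `t₀` has `t₀ 1 ≠ 0`, `X ↦ t₀ 0 / t₀ 1` is injective on `S`
(Gauss), `lam = t₀ 1`; if `p ∣ φ(a,b)`, `(a,b)` coprime and `p ∤ c`, then `p ∤ b`, `X ↦ a / b`,
`lam = b`. Every nonzero element of `S` divides a nonzero integer (it is a nonzero algebraic
element: constant coefficient of a polynomial over `ℤ` which kills it). Otherwise `φ = ± (second
variable)`, `S = ℤ`, `τ = (1, 0)`, `K₁ = 1`. -/
def PrjStmt : Prop := ∀ (n : ℕ) (φ : MvPolynomial (Fin 2) ℤ), 1 ≤ n → φ.IsHomogeneous n →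
  Irreducible φ → ∃ (S : Type) (_ : CommRing S) (_ : IsDomain S) (τ : Fin 2 → S) (K₁ : ℕ),
    K₁ ≠ 0 ∧ (∀ d : S, d ≠ 0 → ∃ (d' : S) (N : ℤ), N ≠ 0 ∧ d * d' = (N : S)) ∧
    (∀ t₀ : Fin 2 → ℂ, t₀ ≠ 0 → aeval t₀ φ = 0 → ∃ (j : S →+* ℂ) (lam : ℂ),
      Function.Injective j ∧ lam ≠ 0 ∧ ∀ l, t₀ l = lam * j (τ l)) ∧
    ∀ (p : ℕ) [Fact p.Prime] (t : Fin 2 → ℤ), ¬ p ∣ K₁ → IsCoprime (t 0) (t 1) →
      (p : ℤ) ∣ eval t φ → ∃ (ε : S →+* AlgebraicClosure (ZMod p))
        (lam : AlgebraicClosure (ZMod p)), lam ≠ 0 ∧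
        ∀ l, ((t l : ℤ) : AlgebraicClosure (ZMod p)) = lam * ε (τ l)

/-- SPB. Node primes in a family over the projective line (uses SPN, NOP, SCL, PRJ). Proof:
`NodalForm` gives `t₀, z₀, q`; PRJ gives `S, τ, K₁` and `t₀ = lam * j τ`; choose `μ` with
`μ ^ W = lam⁻¹`; SCL moves the node to the parameter `j τ`; SPN gives `d`, and `d d' = N`. Let
`K = K₁ * |N|`. If `p ∤ K`, `p ∣ φ(t)`, `t` coprime, then `t = lam * ε τ` modulo `p` and
`ε d ≠ 0`, so there is a node at `ε τ`; SCL with `μ ^ W = lam` moves it to `t` modulo `p`; NOP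
applies outside the finite set of `NodalForm`. -/
def SpbStmt : Prop := ∀ (r : ℕ) (s : Shape r) (W n : ℕ) (M : FMat 2 r)
  (φ : MvPolynomial (Fin 2) ℤ), 1 ≤ W → FamHom s W M → 1 ≤ n → φ.IsHomogeneous n →
  Irreducible φ → NodalForm s W M φ → ∃ K : ℕ, K ≠ 0 ∧
    {t : Fin 2 → ℤ | IsCoprime (t 0) (t 1) ∧ ∃ p : ℕ, p.Prime ∧ p ≠ 2 ∧ (p : ℤ) ∣ eval t φ ∧
      ¬ p ∣ K ∧ ¬ NodePrime s (spec M t) p}.Finite

/-! ## Elimination of one parameter -/

/-- RES. Proof: view `φ, χ` as polynomials in `t_l` over `R` = polynomials in the other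
variables (`l` moved to the front with `rename` / `finSuccEquiv`, or `finSuccEquivNth`); `φ` is
irreducible of positive degree, hence (Gauss) irreducible over `Frac R` and does not divide `χ`
there; Bezout over `Frac R`, clear denominators: `ρ = a φ + b χ`, `0 ≠ ρ` in `R`. -/
def ResStmt : Prop := ∀ (k : ℕ) (l : Fin k) (φ χ : MvPolynomial (Fin k) ℤ), Irreducible φ →
  (∃ a ∈ φ.support, a l ≠ 0) → ¬ φ ∣ χ → ∃ ρ : MvPolynomial (Fin k) ℤ, ρ ≠ 0 ∧
    (∀ a ∈ ρ.support, a l = 0) ∧ ρ ∈ Ideal.span {φ, χ}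

/-! ## Reducedness -/

/-- RDC. Reducedness is open. Proof: let `e = deg / v`. By the degree conditions the image of
`M.det` in `ℤ[t][x][y]` has degree at most `e` in `y`, and the coefficient of `y^e` is a
polynomial in `t` alone. At `(t₀, x₀)` there are `e` roots in `y`, so the coefficient of `y^e` is
not zero there (a nonzero polynomial of smaller degree has fewer roots; the zero polynomial has
infinitely many roots, `ncard = 0 ≠ e`) and the polynomial in `y` is separable. So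
`P = lead * disc` (a polynomial in `t, x` over `ℤ`: e.g. the resultant of `f` and `f'` as
polynomials of formal degrees `e`, `e - 1`, times the lead) does not vanish at `(t₀, x₀)`. Let `ψ`
be a coefficient of `P` with respect to `x` which does not vanish at `t₀`. If `ψ(t) ≠ 0`, then
`P(t, x) ≠ 0` for some `x`, and there `f` has `e` distinct roots. -/
def RdcStmt : Prop := ∀ (k r : ℕ) (s : Shape r) (M : FMat k r), s.Good →
  (∀ i j, ∀ e ∈ (M i j).support, 2 * (s.u * e 0 + s.v * e 1) ≤ s.D i + s.D j) →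
  ∀ t₀ : Fin k → ℂ, RedAt s M t₀ → ∃ ψ : MvPolynomial (Fin k) ℤ, ψ ≠ 0 ∧
    ∀ t : Fin k → ℂ, aeval t ψ ≠ 0 → RedAt s M t

/-- RDI. Compatibility at integral parameters. Proof:
`aeval ![x, y] (map (eval t) M.det) = ev M.det t ![x, y]` and `RingHom.map_det`. -/
def RdiStmt : Prop := ∀ (k r : ℕ) (s : Shape r) (M : FMat k r) (t : Fin k → ℤ),
  Reduced s (spec M t) ↔ RedAt s M (fun l => ((t l : ℤ) : ℂ))

/-- FIN. A nonzero binary form has finitely many coprime zeros. Proof: if `ψ(a,b) = 0` with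
`b ≠ 0` then `a / b` is a root of the nonzero polynomial `ψ(X, 1)` (nonzero because `ψ` is
homogeneous and nonzero), and a coprime pair is determined by `a / b` up to sign; if `b = 0` then
`a = 1` or `a = -1`. -/
def FinStmt : Prop := ∀ (n : ℕ) (ψ : MvPolynomial (Fin 2) ℤ), ψ.IsHomogeneous n → ψ ≠ 0 →
  {t : Fin 2 → ℤ | IsCoprime (t 0) (t 1) ∧ eval t ψ = 0}.Finite

/-- RDB. Reducedness in a family over the projective line (uses RDC, RDI, FIN). Proof: `RedAt` is
invariant under `t ↦ μ^W t`, `μ ≠ 0` (substitution `x ↦ μ^α x`, `y ↦ μ^β y` as in SCL: the roots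
in `y` are multiplied by `μ^β`). Take `ψ ≠ 0` from RDC and a nonzero homogeneous component `ψ_n`
of `ψ`. If `RedAt` fails at a coprime `t`, it fails at `lam * t` for all complex `lam ≠ 0`, so
`ψ(lam t) = Σ lam^i ψ_i(t)` vanishes for all `lam ≠ 0`, hence `ψ_n(t) = 0`: finitely many `t` by
FIN. -/
def RdbStmt : Prop := ∀ (r : ℕ) (s : Shape r) (W : ℕ) (M : FMat 2 r), 1 ≤ W → s.Good →
  FamHom s W M →
  (∀ i j, ∀ e ∈ (M i j).support, 2 * (s.u * e 0 + s.v * e 1) ≤ s.D i + s.D j) →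
  (∃ t₀ : Fin 2 → ℤ, Reduced s (spec M t₀)) →
  {t : Fin 2 → ℤ | IsCoprime (t 0) (t 1) ∧ ¬ Reduced s (spec M t)}.Finite

/-! ## Values of binary forms with a small radical -/

/-- SUW. For a given set of primes there are few values. Proof: let `t₀, t₁` be non proportional
complex zeros of `φ`. `φ` splits over a number field `L` (`AlgebraicClosure ℚ` or a subfield of
`ℂ` of finite degree) into linear forms; after multiplication by a nonzero integer `c` there are
`α_i, β_i` in `𝓞 L`, `i = 0, 1`, with `α_i β'_j`-determinant nonzero, such that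
`x_i = α_i t 0 + β_i t 1` divides `c φ(t)` in `𝓞 L` for all integral `t`. If all primes dividing
`φ(t) ≠ 0` divide `w`, then `x_i` lies in
`Pool.Agent.FT.SU L (c w) (C H)` (`Helper23_FT/Units.lean`), and the pair `(x_0, x_1)` determines
`t`: at most `(C (w H)^η)^2` values `t` by `Pool.Agent.FT.su_bound`. -/
def SuwStmt : Prop := ∀ (n : ℕ) (φ : MvPolynomial (Fin 2) ℤ), φ.IsHomogeneous n →
  (∃ t₀ t₁ : Fin 2 → ℂ, aeval t₀ φ = 0 ∧ aeval t₁ φ = 0 ∧ t₀ 0 * t₁ 1 ≠ t₀ 1 * t₁ 0) →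
  ∀ ε : ℝ, 0 < ε → ∃ C : ℝ, 0 < C ∧ ∀ H w : ℕ, 1 ≤ H → 1 ≤ w →
    ({t : Fin 2 → ℤ | (∀ l, |t l| ≤ (H : ℤ)) ∧ eval t φ ≠ 0 ∧
      ∀ p : ℕ, p.Prime → (p : ℤ) ∣ eval t φ → p ∣ w}.ncard : ℝ) ≤ C * ((w : ℝ) * H) ^ ε

/-- SUN. Few values with a small radical (uses SUW). Proof: put `w = K * partRad K |φ(t)|`; there
are at most `R` possible `w`; sum SUW over them. -/
def SunStmt : Prop := ∀ (n : ℕ) (φ : MvPolynomial (Fin 2) ℤ), φ.IsHomogeneous n →
  (∃ t₀ t₁ : Fin 2 → ℂ, aeval t₀ φ = 0 ∧ aeval t₁ φ = 0 ∧ t₀ 0 * t₁ 1 ≠ t₀ 1 * t₁ 0) →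
  ∀ (K : ℕ) (ε : ℝ), 1 ≤ K → 0 < ε → ∃ C : ℝ, 0 < C ∧ ∀ (H : ℕ) (R : ℝ), 1 ≤ H → 1 ≤ R →
    ({t : Fin 2 → ℤ | (∀ l, |t l| ≤ (H : ℤ)) ∧ eval t φ ≠ 0 ∧
      ((Helper5Frey.partRad K (eval t φ).natAbs : ℕ) : ℝ) ≤ R}.ncard : ℝ) ≤
      C * R * (R * H) ^ ε

end Pool.Agent.EVF
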