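import Pool.Agent.EVF.StmtsR
import Pool.Agent.EVF.StmtsS

/-!
# Squad EVF, part B (helper40): rational fibres of a family over the projective line
-/

namespace Pool.Agent.EVF

open MvPolynomial

/-- coprime parameters in the square -/
def TB (H : ℕ) : Set (Fin 2 → ℤ) := {t | IsCoprime (t 0) (t 1) ∧ ∀ l, |t l| ≤ (H : ℤ)}

/-- CBB: size of the coefficients of the members, with a real scale `b`. Proof: the coefficient of
the monomial `e` of `spec M t i j` is `eval t (coeff e (M i j))` (`coeff_map`), a sum of terms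
`c * t 0 ^ a 0 * t 1 ^ a 1` with `W (a 0 + a 1) + α e 0 + β e 1 ≤ m i + m j`; so it is at most
`(sum of |c|) * b ^ (m i + m j - α e 0 - β e 1)`. Take for `C` one plus the sum of all
coefficients (in absolute value) of all entries. -/
def CbbStmt : Prop := ∀ (r : ℕ) (s : Shape r) (W : ℕ) (M : FMat 2 r),
  FamShape s (fun _ => W) M → ∃ C : ℝ, 1 ≤ C ∧ ∀ b : ℝ, 1 ≤ b → ∀ t : Fin 2 → ℤ,
    (∀ l, |(t l : ℝ)| ≤ b ^ W) → ∀ i j e,
      |((coeff e (spec M t i j) : ℤ) : ℝ)| * b ^ (s.α * e 0 + s.β * e 1) ≤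
        C * b ^ (s.m i + s.m j)

/-- TPB: the top coefficient of the equation is a binary form. Proof: say that `P` in
`ℤ[t][x, y]` has the weight `w` if `W (a 0 + a 1) + α e 0 + β e 1 = w` for all `e` in the support
of `P` and all `a` in the support of `coeff e P`. Weights add under multiplication (`coeff_mul`)
and are preserved by sums and signs. By `FamHom` and `Matrix.det_apply` the determinant has the
weight `2 wt` (`∑ (m i + m (σ i)) = 2 wt`). So all exponents `a` of `coeff (topE s) M.det` satisfy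
`W (a 0 + a 1) + β (deg / v) = 2 wt`, and `a 0 + a 1` is constant. -/
def TpbStmt : Prop := ∀ (r : ℕ) (s : Shape r) (W : ℕ) (M : FMat 2 r), 1 ≤ W → FamHom s W M →
  coeff (topE s) M.det ≠ 0 → ∃ δ : ℕ, (coeff (topE s) M.det).IsHomogeneous δ ∧
    W * δ + s.β * (s.deg / s.v) = 2 * s.wt

/-- TWZ: two zeros. Proof: if some `d j ≥ 2`, then `φ_j(T, 1)` has degree `d j` (`φ_j` is not
divisible by the second variable), is irreducible over `ℚ`, hence separable: two different complex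
roots `θ, θ'` give the zeros `(θ, 1)`, `(θ', 1)`. Otherwise two of the forms are linear, `u a + v b`
and `u' a + v' b` with coprime coefficients; if `u v' = u' v` they would be associated; the zeros
are `(-v, u)` and `(-v', u')`. -/
def TwzStmt : Prop := ∀ (m : ℕ) (φ : Fin m → MvPolynomial (Fin 2) ℤ) (d : Fin m → ℕ),
  (∀ j, (φ j).IsHomogeneous (d j) ∧ Irreducible (φ j) ∧ 1 ≤ d j) →
  (∀ i j, i ≠ j → ¬ Associated (φ i) (φ j)) → 2 ≤ ∑ j, d j →
  ∃ t₀ t₁ : Fin 2 → ℂ, aeval t₀ (∏ j, φ j) = 0 ∧ aeval t₁ (∏ j, φ j) = 0 ∧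
    t₀ 0 * t₁ 1 ≠ t₀ 1 * t₁ 0

/-- **The theorem on rational fibres** (assembly by helper40). -/
def RationalFibresStmt : Prop := ∀ (r : ℕ) (s : Shape r) (W : ℕ) (M : FMat 2 r),
  s.Good → 1 ≤ W → FamShape s (fun _ => W) M → FamHom s W M → coeff (topE s) M.det ≠ 0 →
  (∃ t, Reduced s (spec M t)) →
  ∀ (m : ℕ) (φ : Fin m → MvPolynomial (Fin 2) ℤ) (d : Fin m → ℕ), 1 ≤ m →
    (∀ j, (φ j).IsHomogeneous (d j) ∧ Irreducible (φ j) ∧ NodalForm s W M (φ j)) →
    (∀ i j, i ≠ j → ¬ Associated (φ i) (φ j)) →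
    (∀ c : ℕ → ℝ, (∀ n, 0 ≤ c n) →
      (∀ I : Finset (Fin r × ℕ × ℕ), I.Nonempty → (∀ x ∈ I, s.Slot x) →
        ∑ x ∈ I, s.omega x < W * ((∑ j, min (d j) 4 : ℕ) : ℝ) * c I.card) →
      ∃ C η : ℝ, 0 < η ∧ ∀ H : ℕ, 1 ≤ H →
        ({t : Fin 2 → ℤ | t ∈ TB H ∧ ¬ FreyHolds s c (spec M t)}.ncard : ℝ) ≤
          C * (H : ℝ) ^ (2 - η)) ∧
    (2 ≤ ∑ j, d j → ∀ ε : ℝ, 0 < ε → ∃ κ C : ℝ, ∀ H : ℕ, 1 ≤ H →
      ({t : Fin 2 → ℤ | t ∈ TB H ∧ ¬ FreyHolds s (fun n => κ * n) (spec M t)}.ncard : ℝ) ≤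
        C * (H : ℝ) ^ ε)

end Pool.Agent.EVF
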