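import Pool.Agent.EVF.StmtsS
import Pool.Agent.Helper94_Rad.Stmt2

/-!
# EVF, file F: one hundred percent of the integral points of a family

Rows: CARD ALM SLI LAG SLC COF REM BND BEZ LOC RDA RDM SPC CBD TOP PRN RDG RDM2 FINF. In each docstring the
proof of the row is given.
-/

set_option autoImplicit false

namespace Pool.Agent.EVF

open MvPolynomial
open Pool.Agent.RAD (Loc)
open Pool.Agent.Helper5Frey (partRad)

/-- The integral parameters `t` with `|t_l| ≤ B ^ W_l` for all `l`. -/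
def Box {k : ℕ} (W : Fin k → ℕ) (B : ℕ) : Set (Fin k → ℤ) :=
  {t | ∀ l, |t l| ≤ (B : ℤ) ^ W l}

/-- One hundred percent of the parameters `t` of the box have the property `Q B t`. -/
def AlmostAll {k : ℕ} (W : Fin k → ℕ) (Q : ℕ → (Fin k → ℤ) → Prop) : Prop :=
  ∀ ε : ℝ, 0 < ε → ∃ B₀ : ℕ, ∀ B : ℕ, B₀ ≤ B →
    ({t : Fin k → ℤ | t ∈ Box W B ∧ ¬ Q B t}.ncard : ℝ) ≤ ε * (B : ℝ) ^ (∑ l, W l)

/-- The polynomial in the parameter `t_l`, the other parameters being fixed. -/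
noncomputable def slice {k : ℕ} (l : Fin k) (t : Fin k → ℤ) (ψ : MvPolynomial (Fin k) ℤ) :
    Polynomial ℤ :=
  aeval (fun i => if i = l then Polynomial.X else Polynomial.C (t i)) ψ

/-- The coefficient of `t_l ^ j`, a polynomial in the other parameters. -/
noncomputable def coefl {k : ℕ} (l : Fin k) (j : ℕ) (ψ : MvPolynomial (Fin k) ℤ) :
    MvPolynomial (Fin k) ℤ :=
  ∑ b ∈ ψ.support.filter (fun b => b l = j), monomial (b.erase l) (coeff b ψ)

/-- CARD (40 lines): the box is finite and has at most `3 ^ k * B ^ (∑ W)` elements. Proof: it is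
the product of the intervals `Finset.Icc (-(B ^ W l)) (B ^ W l)` (`Fintype.piFinset`), and
`2 * B ^ W l + 1 ≤ 3 * B ^ W l`. -/
def CardStmt : Prop := ∀ (k : ℕ) (W : Fin k → ℕ) (B : ℕ), (Box W B).Finite ∧
  (1 ≤ B → ((Box W B).ncard : ℝ) ≤ 3 ^ k * (B : ℝ) ^ (∑ l, W l))

/-- ALM (80 lines): calculus of `AlmostAll`: conjunction, consequence for large `B`, finite
conjunctions (induction on `m`, or sum of the exceptional sets with `ε / (m + 1)`). Uses CARD for
the finiteness (`Set.ncard_le_ncard`, `Set.ncard_union_le`). -/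
def AlmStmt : Prop := ∀ (k : ℕ) (W : Fin k → ℕ),
  (∀ P Q : ℕ → (Fin k → ℤ) → Prop, AlmostAll W P → AlmostAll W Q →
    AlmostAll W (fun B t => P B t ∧ Q B t)) ∧
  (∀ (P Q : ℕ → (Fin k → ℤ) → Prop) (B₁ : ℕ), AlmostAll W P →
    (∀ B : ℕ, B₁ ≤ B → ∀ t ∈ Box W B, P B t → Q B t) → AlmostAll W Q) ∧
  (∀ (m : ℕ) (P : Fin m → ℕ → (Fin k → ℤ) → Prop), (∀ j, AlmostAll W (P j)) →
    AlmostAll W (fun B t => ∀ j, P j B t))

/-- SLI (110 lines): slicing in the direction `l`. Proof: divide the box into the lines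
`{t | t i fixed for i ≠ l}` (image under `t ↦ Function.update t l 0`, at most
`3 ^ k * B ^ (∑ W - W l)` of them, for `1 ≤ B`). A line without a point with `G` consists of
exceptions of `G`; a line with such a point `t` contains at most `ε * B ^ W l` exceptions of `Q`
(`c ↦ Function.update t l c`). So there are at most `#(exceptions of G) + 3 ^ k * ε * B ^ (∑ W)`
exceptions of `Q`. Uses CARD. -/
def SliStmt : Prop := ∀ (k : ℕ) (W : Fin k → ℕ) (l : Fin k) (G Q : ℕ → (Fin k → ℤ) → Prop),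
  AlmostAll W G →
  (∀ ε : ℝ, 0 < ε → ∃ B₀ : ℕ, ∀ B : ℕ, B₀ ≤ B → ∀ t ∈ Box W B, G B t →
    ({c : ℤ | |c| ≤ (B : ℤ) ^ W l ∧ ¬ Q B (Function.update t l c)}.ncard : ℝ) ≤
      ε * (B : ℝ) ^ W l) →
  AlmostAll W Q

/-- LAG (110 lines): a polynomial with a large coefficient is small at few integers. Proof, with
`C = (D + 1) * 2 ^ D`: if there are more than `(D + 1) * (δ * T + 1)` such integers, taking every
`⌈δ * T⌉`-th of them in increasing order gives `x_0 < ... < x_D` with `|x_i - x_m| ≥ δ * T` for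
`i ≠ m`. Lagrange interpolation (`Lagrange.interpolate`, `Lagrange.eq_interpolate_of_eval_eq`) over
the reals: `g = ∑ g(x_i) ∏_(m ≠ i) (X - x_m) / (x_i - x_m)`; the coefficient of `X ^ j` of
`∏_(m ≠ i) (X - x_m)` is at most `2 ^ D * T ^ (D - j)` in absolute value (induction on the number
of factors), so `|g_j| ≤ (D + 1) * μ * 2 ^ D * T ^ (D - j) / (δ * T) ^ D`, that is
`|g_j| * T ^ j * δ ^ D ≤ C * μ`. For `j > D` the hypothesis is false. -/
def LagStmt : Prop := ∀ D : ℕ, ∃ C : ℝ, 1 ≤ C ∧ ∀ g : Polynomial ℤ, g.natDegree ≤ D →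
  ∀ (T j : ℕ) (δ μ : ℝ), 1 ≤ T → 0 < δ → δ ≤ 1 → 0 ≤ μ →
    C * μ < |((g.coeff j : ℤ) : ℝ)| * (T : ℝ) ^ j * δ ^ D →
    ({c : ℤ | |c| ≤ (T : ℤ) ∧ |((g.eval c : ℤ) : ℝ)| ≤ μ}.ncard : ℝ) ≤
      ((D : ℝ) + 1) * (δ * T + 1)

/-- SLC (100 lines): values, coefficients, degree and derivative of `slice`. Proof: all the
statements are additive in `ψ`, so check them for monomials (`MvPolynomial.induction_on'`, or
`ψ.support_sum_monomial_coeff`): the slice of `monomial b c` is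
`c * (∏_(i ≠ l) t_i ^ b_i) * X ^ b_l`. -/
def SlcStmt : Prop := ∀ (k : ℕ) (l : Fin k) (t : Fin k → ℤ) (ψ : MvPolynomial (Fin k) ℤ),
  (∀ c : ℤ, (slice l t ψ).eval c = eval (Function.update t l c) ψ) ∧
  (∀ j, (slice l t ψ).coeff j = eval t (coefl l j ψ)) ∧
  (slice l t ψ).natDegree ≤ degreeOf l ψ ∧
  slice l t (pderiv l ψ) = Polynomial.derivative (slice l t ψ)

/-- COF (90 lines): the coefficients in `t_l`. Proof: the first item from `coeff_sum`,
`coeff_monomial` (if `a l = 0` and `b.erase l = a`, `b l = j` then `b = a + single l j`); the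
others follow: in the support of `coefl l j ψ` the exponent of `t_l` is `0`, and the other
exponents come from the support of `ψ`; `degreeOf l ψ` is attained (`degreeOf_eq_sup`). The last
item: `eval_eq'` and all exponents of `t_l` are `0`. -/
def CofStmt : Prop := ∀ (k : ℕ) (l : Fin k) (ψ : MvPolynomial (Fin k) ℤ),
  (∀ (j : ℕ) (a : Fin k →₀ ℕ), coeff a (coefl l j ψ) =
    if a l = 0 then coeff (a + Finsupp.single l j) ψ else 0) ∧
  (∀ j : ℕ, degreeOf l (coefl l j ψ) = 0) ∧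
  (∀ (j : ℕ) (i : Fin k), degreeOf i (coefl l j ψ) ≤ degreeOf i ψ) ∧
  (ψ ≠ 0 → coefl l (degreeOf l ψ) ψ ≠ 0) ∧
  (degreeOf l ψ = 0 → ∀ (t : Fin k → ℤ) (c : ℤ), eval (Function.update t l c) ψ = eval t ψ)

/-- REM (120 lines): if a monomial of weight `ω` occurs in `ψ` then `|ψ(t)| ≥ B ^ (ω - ε)` for one
hundred percent of the box. Proof by strong induction on the number of the variables `i` with
`degreeOf i ψ ≠ 0`. If there is none, `ψ` is a nonzero constant, `a = 0` and `1 ≤ |ψ|`. Else take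
such a variable `l`, `j = a l`; `coefl l j ψ` depends on fewer variables and contains the monomial
`a.erase l` (COF), so `G B t : B ^ (ω - W l * j - ε / 2) ≤ |eval t (coefl l j ψ)|` holds for one
hundred percent. For `t` with `G`, `g = slice l t ψ` has this value as coefficient `j` (SLC);
apply LAG with `T = B ^ W l`, `D = degreeOf l ψ ≥ 1`, `μ = B ^ (ω - ε)`,
`δ = (2 * C) ^ (1 / D) * B ^ (-ε / (2 * D))`: at most `(D + 1) * (δ * T + 1) = o(B ^ W l)`
exceptions `c`, since `W l ≥ 1`. Conclude by SLI. Uses CARD ALM SLI LAG SLC COF. -/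
def RemStmt : Prop := ∀ (k : ℕ) (W : Fin k → ℕ) (ψ : MvPolynomial (Fin k) ℤ)
  (a : Fin k →₀ ℕ) (ε : ℝ), (∀ i, 1 ≤ W i) → a ∈ ψ.support → 0 < ε →
  AlmostAll W (fun B t =>
    (B : ℝ) ^ (((∑ l, W l * a l : ℕ) : ℝ) - ε) ≤ |((eval t ψ : ℤ) : ℝ)|)

/-- BND (50 lines): values of polynomials on the box. Proof: `eval_eq'`, triangle inequality,
`|t_l ^ a_l| ≤ B ^ (W l * a l)`, `C = 1 + ∑ |coeff a ψ|`. -/
def BndStmt : Prop := ∀ (k : ℕ) (W : Fin k → ℕ) (ψ : MvPolynomial (Fin k) ℤ),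
  ∃ C : ℝ, 1 ≤ C ∧ ∀ E : ℕ, (∀ a ∈ ψ.support, ∑ l, W l * a l ≤ E) →
    ∀ B : ℕ, 1 ≤ B → ∀ t ∈ Box W B, |((eval t ψ : ℤ) : ℝ)| ≤ C * (B : ℝ) ^ E

/-- BEZ (15 lines): elimination of `t_l`, in the form used below. Proof: RES (file S) and
`Ideal.mem_span_pair`; `degreeOf l ρ = 0` since all the exponents of `t_l` in `ρ` are zero
(`degreeOf_eq_sup`). Uses RES. -/
def BezStmt : Prop := ∀ (k : ℕ) (l : Fin k) (φ χ : MvPolynomial (Fin k) ℤ),
  Irreducible φ → 1 ≤ degreeOf l φ → ¬ φ ∣ χ →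
  ∃ A B ρ : MvPolynomial (Fin k) ℤ, ρ ≠ 0 ∧ degreeOf l ρ = 0 ∧ A * φ + B * χ = ρ

/-- LOC (90 lines): the slices of an irreducible polynomial. Proof: `φ` does not divide
`pderiv l φ`, which is nonzero and has a smaller degree in `t_l`; let `ρ₀` be as in BEZ for
`χ = pderiv l φ` and `ρ = ρ₀ * coefl l (degreeOf l φ) φ`. Slicing the identity gives
`A_t * R + B_t * R' = C (eval t ρ₀)` for `R = slice l t φ` (SLC, COF), hence `R` is separable over
the rationals, and a prime which divides `R c` and `R' c` divides `eval t ρ₀`, so `K`. The leading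
coefficient of `R` is `eval t (coefl l (degreeOf l φ) φ)`. Uses BEZ SLC COF. -/
def LocStmt : Prop := ∀ (k : ℕ) (l : Fin k) (φ : MvPolynomial (Fin k) ℤ), Irreducible φ →
  1 ≤ degreeOf l φ → ∃ ρ : MvPolynomial (Fin k) ℤ, ρ ≠ 0 ∧ degreeOf l ρ = 0 ∧
    ∀ (t : Fin k → ℤ) (K : ℕ), eval t ρ ≠ 0 → eval t ρ ∣ (K : ℤ) →
      (slice l t φ).natDegree = degreeOf l φ ∧
      ((slice l t φ).map (Int.castRingHom ℚ)).Separable ∧ Loc (slice l t φ) K

/-- RDA (120 lines): the radical lemma for one polynomial. Proof: SLI with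
`G B t : eval t κ ≠ 0` (REM, any monomial of `κ`, `ε = 1 / 2`). For `t` with `G` put
`R = slice l t φ`, `K = |eval t κ|`, `H = B ^ W l`, `D = degreeOf l φ`: `Good D B' H R K` for a
constant `B'` and large `B`, by BND (with `E` the maximal weight, `C * B ^ E ≤ B ^ (E + 1) ≤
H ^ (E + 1)`) and the hypothesis. `Rad2Stmt` (`D ≥ 2`) bounds the number of the exceptions `c` by
`δ * H`; `eval (update t l c) κ = eval t κ` (COF), `eval (update t l c) φ = R.eval c` (SLC).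
Uses Rad2Stmt REM BND SLI SLC COF. -/
def RdaStmt : Prop := ∀ (k : ℕ) (W : Fin k → ℕ) (l : Fin k) (φ κ : MvPolynomial (Fin k) ℤ)
  (ε : ℝ), (∀ i, 1 ≤ W i) → 2 ≤ degreeOf l φ → κ ≠ 0 → degreeOf l κ = 0 → 0 < ε →
  (∀ t : Fin k → ℤ, eval t κ ≠ 0 → (slice l t φ).natDegree = degreeOf l φ ∧
    ((slice l t φ).map (Int.castRingHom ℚ)).Separable ∧
    Loc (slice l t φ) (eval t κ).natAbs) →
  AlmostAll W (fun B t => eval t κ ≠ 0 ∧ eval t φ ≠ 0 ∧
    (B : ℝ) ^ ((W l : ℝ) * (2 - ε)) ≤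
      (partRad (eval t κ).natAbs (eval t φ).natAbs : ℝ))

/-- RDM (130 lines): the radical lemma for several polynomials. Proof: let `κ` be twice the
product of the `ρ` of LOC for all `φ j`, of the `ρ` of BEZ for `(φ j, χ j)` and of the `ρ` of BEZ
for the pairs `(φ i, φ j)`, `i ≠ j`. RDA with `ε / (2 * m + 2)` for every `j`, ALM. Take `P` the set of
the primes outside `κ(t)` which divide one of the `φ j (t)`. A prime outside `κ(t)` divides at
most one of them, is odd, and does not divide `χ j (t)` if it divides `φ j (t)` (evaluate the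
identities of BEZ at `t`); so the product of `P` is the product over `j` of the `partRad`, which
is at least `B ^ (W l * m * (2 - ε'))`. Uses LOC BEZ RDA ALM. -/
def RdmStmt : Prop := ∀ (k : ℕ) (W : Fin k → ℕ) (l : Fin k) (m : ℕ)
  (φ χ : Fin m → MvPolynomial (Fin k) ℤ) (ε : ℝ), (∀ i, 1 ≤ W i) →
  (∀ j, Irreducible (φ j)) → (∀ j, 2 ≤ degreeOf l (φ j)) → (∀ i j, i ≠ j → ¬ φ i ∣ φ j) →
  (∀ j, ¬ φ j ∣ χ j) → 0 < ε →
  AlmostAll W (fun B t => ∃ P : Finset ℕ,
    (∀ p ∈ P, p.Prime ∧ p ≠ 2 ∧ ∃ j, (p : ℤ) ∣ eval t (φ j) ∧ ¬ (p : ℤ) ∣ eval t (χ j)) ∧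
    (B : ℝ) ^ ((W l : ℝ) * (2 * m - ε)) ≤ ((∏ p ∈ P, p : ℕ) : ℝ))

/-- SPC (50 lines): the member at `t`. Proof: `coeff_map`, `RingHom.map_det`, supports shrink. -/
def SpcStmt : Prop := ∀ (k r : ℕ) (s : Shape r) (W : Fin k → ℕ) (M : FMat k r),
  FamShape s W M → ∀ t : Fin k → ℤ,
    (∀ i j, spec M t i j = spec M t j i) ∧
    (∀ i j, ∀ e ∈ (spec M t i j).support, 2 * (s.u * e 0 + s.v * e 1) ≤ s.D i + s.D j) ∧
    (∀ i j e, coeff e (spec M t i j) = eval t (coeff e (M i j))) ∧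
    (∀ e, coeff e (F (spec M t)) = eval t (coeff e M.det))

/-- CBD (60 lines): size of the coefficients of the members. Proof: if `e` is not in the support
of `M i j` the coefficient is zero; else BND with `E = m i + m j - α * e 0 - β * e 1` (the support of
`coeff e (M i j)` may be empty, then the value is zero); maximum of the finitely many constants
(sum over `i, j` and over the supports). Uses BND SPC. -/
def CbdStmt : Prop := ∀ (k r : ℕ) (s : Shape r) (W : Fin k → ℕ) (M : FMat k r),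
  FamShape s W M → ∃ C : ℝ, 1 ≤ C ∧ ∀ B : ℕ, 1 ≤ B → ∀ t ∈ Box W B, ∀ i j e,
    |((coeff e (spec M t i j) : ℤ) : ℝ)| * (B : ℝ) ^ (s.α * e 0 + s.β * e 1) ≤
      C * (B : ℝ) ^ (s.m i + s.m j)

/-- TOP (40 lines): the coefficient of `y ^ (deg / v)` is large. Proof: REM for
`coeff (topE s) M.det` and the exponent `a` of `TopWeight`, SPC, ALM. Uses REM SPC ALM. -/
def TopStmt : Prop := ∀ (k r : ℕ) (s : Shape r) (W : Fin k → ℕ) (M : FMat k r) (ε : ℝ),
  (∀ i, 1 ≤ W i) → FamShape s W M → TopWeight s W M → 0 < ε →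
  AlmostAll W (fun B t => (B : ℝ) ^ ((2 * s.wt : ℝ) - ε) ≤
    |((coeff (topE s) (F (spec M t)) : ℤ) : ℝ)| * (B : ℝ) ^ (s.β * (s.deg / s.v)))

/-- PRN (20 lines): a nodal polynomial is prime or zero. Proof: its multiples are the kernel of
`aeval t₀` into the complex numbers, a prime ideal. -/
def PrnStmt : Prop := ∀ (k r : ℕ) (s : Shape r) (M : FMat k r) (φ : MvPolynomial (Fin k) ℤ),
  Nodal s M φ → φ ≠ 0 → Prime φ

/-- RDG (150 lines): the radical lemma for one polynomial of degree at least one in `t_l`. Proof: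
degree at least two: RDA. Degree one: choose `c₀ = 0` or `c₀ = 1` such that the value `κ₀` of `φ` at
`t_l = c₀` is not zero, and apply RDA to `φ * (X l - C c₀)` and `κ * κ₀`: the slices are separable and
`Loc` outside `κ₀(t)`; the radical of `φ(t) * (t_l - c₀)` is at most `2 * B ^ W l` times the one of
`φ(t)`. Uses RDA ALM SLC COF. -/
def RdgStmt : Prop := ∀ (k : ℕ) (W : Fin k → ℕ) (l : Fin k) (φ κ : MvPolynomial (Fin k) ℤ)
  (ε : ℝ), (∀ i, 1 ≤ W i) → 1 ≤ degreeOf l φ → κ ≠ 0 → degreeOf l κ = 0 → 0 < ε →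
  (∀ t : Fin k → ℤ, eval t κ ≠ 0 → (slice l t φ).natDegree = degreeOf l φ ∧
    ((slice l t φ).map (Int.castRingHom ℚ)).Separable ∧
    Loc (slice l t φ) (eval t κ).natAbs) →
  AlmostAll W (fun B t => eval t κ ≠ 0 ∧ eval t φ ≠ 0 ∧
    (B : ℝ) ^ ((W l : ℝ) * (((min (degreeOf l φ) 2 : ℕ) : ℝ) - ε)) ≤
      (partRad (eval t κ).natAbs (eval t φ).natAbs : ℝ))

/-- RDM2 (150 lines): the radical lemma for several polynomials and several directions. Proof: as
RDM, with `κ i` = twice the product of the `ρ` of LOC for `φ i`, of BEZ for `(φ i, χ i)` and of BEZ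
for all the `(φ i, φ j)`, `j ≠ i`, all in the direction `l i`. The primes outside `κ i (t)` which
divide `φ i (t)` do not divide `φ j (t)`. Uses LOC BEZ RDG ALM. -/
def Rdm2Stmt : Prop := ∀ (k : ℕ) (W : Fin k → ℕ) (m : ℕ) (l : Fin m → Fin k)
  (φ χ : Fin m → MvPolynomial (Fin k) ℤ) (ε : ℝ), (∀ i, 1 ≤ W i) →
  (∀ j, Irreducible (φ j)) → (∀ j, 1 ≤ degreeOf (l j) (φ j)) → (∀ i j, i ≠ j → ¬ φ i ∣ φ j) →
  (∀ j, ¬ φ j ∣ χ j) → 0 < ε →
  AlmostAll W (fun B t => ∃ P : Finset ℕ,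
    (∀ p ∈ P, p.Prime ∧ p ≠ 2 ∧ ∃ j, (p : ℤ) ∣ eval t (φ j) ∧ ¬ (p : ℤ) ∣ eval t (χ j)) ∧
    (B : ℝ) ^ (((∑ j, min (degreeOf (l j) (φ j)) 2 * W (l j) : ℕ) : ℝ) - ε) ≤
      ((∏ p ∈ P, p : ℕ) : ℝ))

/-- FINF (180 lines): **the theorem on integral points**. Proof: let `χ j`, `ψ j` be given by
SPF (file S: node primes from `Nodal`), `ψR` by RDC and RDI (file S: reducedness outside `ψR = 0`),
`C₁` by CBD and `C₂` by GM2 (file H). For one hundred percent of the `t` in the box: all the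
`ψ`'s are nonzero (REM with `ε = 1 / 2`: `B ^ (-1 / 2) ≤ |ψ(t)|` implies `ψ(t) ≠ 0`), TOP holds
with `ε₁`, and RDM2 gives `P` with `B ^ (M - ε₁) ≤ ∏ P`, `M` = the sum over `j` of
`min (degree) 2 * W (l j)`; all `p ∈ P` are node primes. GM2 with `b = B`, `Q = C₁`,
`θ = B ^ (-ε₁)` gives the basis `bas`, of size `n ≤ C₂`, the set `I` of slots and
`hW ≤ (∑_I omega) * log B + C₂ * (log C₁ + ε₁ * log B) + C₂`. If `n = 0` the height is zero (empty
determinant). Otherwise `∑_I omega < M * c n`; there are finitely many sets `I`, so the difference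
is bounded from below, and the inequality holds for small `ε₁` and large `B`. -/
def IntegralPointsStmt : Prop := ∀ (k r : ℕ) (s : Shape r) (W : Fin k → ℕ) (M : FMat k r),
  s.Good → (∀ i, 1 ≤ W i) → FamShape s W M → TopWeight s W M → (∃ t, Reduced s (spec M t)) →
  ∀ (m : ℕ) (l : Fin m → Fin k) (φ : Fin m → MvPolynomial (Fin k) ℤ),
    (∀ j, Nodal s M (φ j)) → (∀ j, 1 ≤ degreeOf (l j) (φ j)) →
    (∀ i j, i ≠ j → ¬ Associated (φ i) (φ j)) →
  ∀ c : ℕ → ℝ, (∀ n, 0 ≤ c n) →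
    (∀ I : Finset (Fin r × ℕ × ℕ), I.Nonempty → (∀ x ∈ I, s.Slot x) →
      ∑ x ∈ I, s.omega x < (∑ j, min (degreeOf (l j) (φ j)) 2 * W (l j) : ℕ) * c I.card) →
  ∀ ε : ℝ, 0 < ε → ∃ B₀ : ℕ, ∀ B : ℕ, B₀ ≤ B →
    ({t : Fin k → ℤ | (∀ i, |t i| ≤ (B : ℤ) ^ W i) ∧ ¬ FreyHolds s c (spec M t)}.ncard : ℝ) ≤
      ε * (B : ℝ) ^ (∑ i, W i)

end Pool.Agent.EVF
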