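import Pool.Agent.EVF.Defs
import Pool.Agent.Helper90_Frey.Disc
import Pool.Agent.Helper90_Frey.Form

/-!
# Squad EVF, part G (helper40, helper96): one member, its Gram matrix and its height

Rows: LEA GFI RK1 DGP WSZ WSD DIV EXT KER MES HSM ZBA DET HER QFI LOW GMN. In each docstring the
proof of the row is given. The names `Helper90Frey.*` are in `Pool.Agent.Helper90_Frey`
(`Slice`, `Roots`, `Kernel`, `Horner`, `Disc`, `Form`): `slice F x` is the polynomial `F (x, Y)`,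
`val F x y` the value, `rts F x` the set of the roots of `slice F x`, `Lead F e l` says that all
slices have degree `e` and leading coefficient `l`.
-/

namespace Pool.Agent.EVF

open MvPolynomial MeasureTheory Matrix
open scoped ComplexOrder

/-- complex coefficients -/
noncomputable def cpx (G : MvPolynomial (Fin 2) ℤ) : MvPolynomial (Fin 2) ℂ :=
  MvPolynomial.map (Int.castRingHom ℂ) G

/-- matrices with entries in `ℂ[x, y]` -/
abbrev CMat (r : ℕ) : Type := Matrix (Fin r) (Fin r) (MvPolynomial (Fin 2) ℂ)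

/-- vectors with entries in `ℂ[x, y]` -/
abbrev CVec (r : ℕ) : Type := Fin r → MvPolynomial (Fin 2) ℂ

/-- the member with complex coefficients -/
noncomputable def cmat {r : ℕ} (N : Mat r) : CMat r := N.map (MvPolynomial.map (Int.castRingHom ℂ))

lemma cmat_apply {r : ℕ} (N : Mat r) (i j : Fin r) : cmat N i j = cpx (N i j) := rfl

lemma cmat_det {r : ℕ} (N : Mat r) : (cmat N).det = cpx (F N) :=
  (RingHom.map_det (MvPolynomial.map (Int.castRingHom ℂ)) N).symm

lemma cmat_adj {r : ℕ} (N : Mat r) (i j : Fin r) :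
    (cmat N).adjugate i j = cpx (N.adjugate i j) := by
  have h := RingHom.map_adjugate (MvPolynomial.map (Int.castRingHom ℂ)) N
  exact (congrFun (congrFun h i) j).symm

lemma coeff_cpx (G : MvPolynomial (Fin 2) ℤ) (e : Fin 2 →₀ ℕ) :
    coeff e (cpx G) = ((coeff e G : ℤ) : ℂ) := by
  unfold cpx
  rw [coeff_map]
  rfl

lemma val_cpx (G : MvPolynomial (Fin 2) ℤ) (x y : ℂ) :
    Helper90Frey.val (cpx G) x y = aeval ![x, y] G :=
  (Helper90Frey.aeval_eq_val G x y).symm

/-- symmetric matrices of the given shape -/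
structure Shaped {r : ℕ} (s : Shape r) (A : CMat r) : Prop where
  symm : ∀ i j, A i j = A j i
  deg : ∀ i j, ∀ e ∈ (A i j).support, 2 * (s.u * e 0 + s.v * e 1) ≤ s.D i + s.D j
  top : coeff (topE s) A.det ≠ 0

/-- the degrees of the forms -/
def Small {r : ℕ} (s : Shape r) (q : CVec r) : Prop :=
  ∀ i, ∀ e ∈ (q i).support, 2 * (s.u * (e 0 + 1) + s.v * (e 1 + 1)) < s.deg + s.D i

/-- the assumptions on the size of the member -/
structure Sized {r : ℕ} (s : Shape r) (A : CMat r) (b Q θ : ℝ) : Prop where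
  hb : 1 ≤ b
  hQ : 1 ≤ Q
  hθ : 0 < θ
  hθ1 : θ ≤ 1
  coef : ∀ i j e, ‖coeff e (A i j)‖ * b ^ (s.α * e 0 + s.β * e 1) ≤ Q * b ^ (s.m i + s.m j)
  top : θ * b ^ (2 * s.wt) ≤ ‖coeff (topE s) A.det‖ * b ^ (s.β * (s.deg / s.v))

/-- LEA (60 lines). Proof: the weighted degree `u * e 0 + v * e 1` of the monomials of `A.det` is at
most `deg = ∑ D i` (`Matrix.det_apply`, products over `i` of entries `(σ i, i)`, and
`∑ (D i + D (σ i)) = 2 * deg`), and `deg = v * (deg / v)`; so `e 1 ≤ deg / v`, with equality only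
for `e 0 = 0`, that is `e = topE s`. -/
def LeaStmt : Prop := ∀ (r : ℕ) (s : Shape r) (A : CMat r), s.Good → Shaped s A →
  Helper90Frey.Lead A.det (s.deg / s.v) (coeff (topE s) A.det) ∧
  ∀ e ∈ A.det.support, s.u * e 0 + s.v * e 1 ≤ s.deg

/-- GFI (80 lines). Proof: there is a polynomial `P` in `x` (the resultant or discriminant of
`slice F x`, a polynomial in its coefficients, which are polynomials in `x`; or the norm of the
derivative) with `P(x) ≠ 0` if and only if the `e` roots of `slice F x` are distinct. It is not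
zero, so it has finitely many zeros. (Compare row RDC, `Helper31_EVF`.) -/
def GfiStmt : Prop := ∀ (F : MvPolynomial (Fin 2) ℂ) (e : ℕ) (l : ℂ), 1 ≤ e →
  Helper90Frey.Lead F e l → (∃ x, (Helper90Frey.rts F x).card = e) →
  {x : ℂ | (Helper90Frey.rts F x).card ≠ e}.Finite

/-- RK1 (80 lines). Proof: let `B` be the value of `A` at `(x, y)`, a symmetric complex matrix
with determinant zero. The derivative of the determinant is `trace (adjugate A * A')`
(`A' = pderiv 1` of the entries), so `adjugate B ≠ 0`, so `B` has rank `r - 1` and, by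
`B * adjugate B = 0`, the columns of `adjugate B` are multiples of one vector `k ≠ 0`; by symmetry
`adjugate B = c * k * kᵀ` with `c ≠ 0`; take `w = √c * k`. (For `r = 0` the derivative of the
determinant `1` is zero; for `r = 1` the adjugate is `1`.) -/
def Rk1Stmt : Prop := ∀ (r : ℕ) (A : CMat r), (∀ i j, A i j = A j i) → ∀ x y : ℂ,
  Helper90Frey.val A.det x y = 0 → Helper90Frey.val (pderiv 1 A.det) x y ≠ 0 →
  ∃ w : Fin r → ℂ, w ≠ 0 ∧ ∀ i j, Helper90Frey.val (A.adjugate i j) x y = w i * w j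

/-- DGP (70 lines). Proof: twice the weighted degree `u * e 0 + v * e 1` of the monomials of
`A.adjugate i j` is at most `2 * deg - D i - D j` (`adjugate_apply`, determinant of the matrix with
the row `j` replaced by `Pi.single i 1`), twice the one of `q j` is less than
`deg + D j - 2 * u - 2 * v`; by `small` and `parity`, `deg ≤ D i + 2 * (u + v)`. So twice the one of
a monomial of the product is less than `2 * deg = 2 * v * (deg / v)`. -/
def DgpStmt : Prop := ∀ (r : ℕ) (s : Shape r) (A : CMat r) (q : CVec r), s.Good → Shaped s A →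
  Small s q → ∀ i, ∀ e ∈ ((A.adjugate *ᵥ q) i).support, e 1 < s.deg / s.v

/-- weighted size -/
noncomputable def wsz (α β : ℕ) (b : ℝ) (G : MvPolynomial (Fin 2) ℂ) : ℝ :=
  ∑ e ∈ G.support, ‖coeff e G‖ * b ^ (α * e 0 + β * e 1)

/-- WSZ (100 lines). Proof: calculus of the weighted size: triangle inequality; the size of a
monomial is multiplicative, then write `G` as the sum of its monomials
(`support_sum_monomial_coeff`); the coefficient of `Y ^ k` in the slice is the sum of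
`coeff e G * x ^ e 0` over the exponents `e` with `e 1 = k`. -/
def WszStmt : Prop := ∀ (α β : ℕ) (b : ℝ), 0 ≤ b →
  (∀ G H, wsz α β b (G + H) ≤ wsz α β b G + wsz α β b H) ∧
  (∀ G H, wsz α β b (G * H) ≤ wsz α β b G * wsz α β b H) ∧
  (∀ G, wsz α β b (-G) = wsz α β b G) ∧ wsz α β b 0 = 0 ∧ wsz α β b 1 = 1 ∧
  (∀ G (x : ℂ) (k : ℕ), ‖x‖ ≤ b ^ α →
    ‖(Helper90Frey.slice G x).coeff k‖ * b ^ (β * k) ≤ wsz α β b G) ∧
  (∀ G (x y : ℂ) (T : ℝ) (d : ℕ), 1 ≤ T → ‖x‖ ≤ b ^ α → ‖y‖ ≤ T * b ^ β →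
    (∀ e ∈ G.support, e 1 ≤ d) → ‖Helper90Frey.val G x y‖ ≤ T ^ d * wsz α β b G)

/-- WSD (100 lines). Proof: the entry `(i, j)` has at most `(D i + D j + 1) ^ 2` monomials, each of
size at most `Q * b ^ (m i + m j)`; the determinant is a sum of `r!` products
(`Matrix.det_apply`, `∑ (m i + m (σ i)) = 2 * wt`), WSZ; for the adjugate use `adjugate_apply` (row
`j` replaced by `Pi.single i 1`: the products vanish unless `σ` sends one to the other, and then
the remaining factors have size at most `(C * Q) ^ (r - 1) * b ^ (2 * wt - m i - m j)`). Uses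
WSZ. -/
def WsdStmt : Prop := ∀ (r : ℕ) (s : Shape r), s.Good → ∃ C : ℝ, 1 ≤ C ∧
  ∀ (A : CMat r) (b Q θ : ℝ), Shaped s A → Sized s A b Q θ →
  (∀ i j, wsz s.α s.β b (A i j) ≤ C * Q * b ^ (s.m i + s.m j)) ∧
  wsz s.α s.β b A.det ≤ C * Q ^ r * b ^ (2 * s.wt) ∧
  ∀ i j, wsz s.α s.β b (A.adjugate i j) * b ^ (s.m i + s.m j) ≤ C * Q ^ r * b ^ (2 * s.wt)

/-- DIV (70 lines). Proof: with `e` the degree of `f` and `l` its leading coefficient,
`l * q_k = (f * q)_(e + k) - ∑_(j > k) f_(e + k - j) * q_j`; put `a_k = ‖q_k‖ * R ^ k` and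
`S_k = ∑_(j ≥ k) a_j`: `a_k ≤ (G + M * S_(k+1)) / lam`, so
`S_k ≤ (1 + M / lam) * S_(k+1) + G / lam` and, by descending induction from `k = d + 1`,
`S_k ≤ (d + 1 - k) * (G / lam) * (1 + M / lam) ^ (d - k)`. -/
def DivStmt : Prop := ∀ (f q : Polynomial ℂ) (R M G lam : ℝ) (d : ℕ), 0 < R → 0 < lam → 0 ≤ M →
  0 ≤ G → (∀ k, ‖f.coeff k‖ * R ^ k ≤ M) → lam ≤ ‖f.leadingCoeff‖ * R ^ f.natDegree →
  q.natDegree ≤ d → (∀ k, ‖(f * q).coeff k‖ * R ^ k ≤ G) →
  ∀ k, ‖q.coeff k‖ * R ^ k ≤ (d + 1) * (G / lam) * (1 + M / lam) ^ d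

/-- EXT (200 lines): the coefficients from the form, pointwise. Proof: put `e = deg / v`,
`R = b ^ β`, `P = A.adjugate *ᵥ q`. All constants below depend on `r, s` only, `L = Q / θ ≥ 1`, and
`Φ` is the sum on the right. (1) By WSD, WSZ and LEA, `Helper90Frey.Lead.root_bound` bounds the
roots: `‖y‖ ≤ T * R` with `T = C * (Q ^ r / θ)`. (2) At a root `y`,
`P i = w i * (∑ q j * w j)`, where `w = W y`, and `‖w i‖ ^ 2 = ‖adjugate i i‖` is at most
`C * L ^ C * b ^ (2 * wt) / b ^ (2 * m i)` (WSD, WSZ). So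
`∑_y ‖P i (x, y)‖ ^ 2 / ‖F_y‖ ^ 2 ≤ C * L ^ C * (b ^ (2 * wt) / b ^ (2 * m i)) * Φ`. (3) By DGP the
slice of `P i` has degree less than `e`; `Helper90Frey.coeff_sq_le` (`q = slice A.det x`,
`P = slice (P i) x`; `slice_derivative`, `card_eq_iff`) gives
`‖(slice (P i) x).coeff k‖ * b ^ (β * (k + 1)) ≤ C * L ^ C * (b ^ (2 * wt) / b ^ (m i)) * b ^ wt * √Φ`.
(4) `A *ᵥ P = A.det • q` (`mul_adjugate`); the coefficients of the slice of `∑_j A i j * P j` times
`b ^ (β * (k + 1))` are at most `C * L ^ C * b ^ (3 * wt + m i) * √Φ` (coefficients of a product of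
slices, WSZ, WSD for `A i j`). (5) DIV with `f = slice A.det x`, `lam = θ * b ^ (2 * wt)`,
`M = C * Q ^ r * b ^ (2 * wt)`, `q = slice (q i) x` (degree at most `deg + D i`). Uses LEA DGP WSZ
WSD DIV. -/
def ExtStmt : Prop := ∀ (r : ℕ) (s : Shape r), s.Good → ∃ (C : ℝ) (c : ℕ), 1 ≤ C ∧
  ∀ (A : CMat r) (b Q θ : ℝ), Shaped s A → Sized s A b Q θ → ∀ q : CVec r, Small s q →
  ∀ x : ℂ, ‖x‖ ≤ b ^ s.α → (Helper90Frey.rts A.det x).card = s.deg / s.v →
  ∀ W : ℂ → Fin r → ℂ, (∀ y ∈ Helper90Frey.rts A.det x, ∀ i j,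
    Helper90Frey.val (A.adjugate i j) x y = W y i * W y j) →
  ∀ (i : Fin r) (k : ℕ),
    ‖(Helper90Frey.slice (q i) x).coeff k‖ ^ 2 * (b ^ (s.β * (k + 1))) ^ 2 ≤
      C * (Q / θ) ^ c * (b ^ (s.wt + s.m i)) ^ 2 *
        ∑ y ∈ Helper90Frey.rts A.det x, ‖∑ j, Helper90Frey.val (q j) x y * W y j‖ ^ 2 /
          ‖Helper90Frey.val (pderiv 1 A.det) x y‖ ^ 2

/-- KER (100 lines): the integrand at a good point. Proof: the set in the definition of `kernel` is
`rts (cpx (F N)) x` (LEA, `Lead.mem_rts`, `finsum_mem_coe_finset`); at `y` in it the derivative is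
not zero (`Lead.card_eq_iff`), RK1 gives `w`, and with `adjugate = w * wᵀ` the vector
`adj *ᵥ q` is `(∑ q j * w j) • w` and `hs (adj) = ∑ ‖w j‖ ^ 2 ≠ 0`, so
`form = (∑ q j * w j) * star (∑ q' j * w j)`. Uses LEA RK1. -/
def KerStmt : Prop := ∀ (r : ℕ) (s : Shape r) (N : Mat r), s.Good → Shaped s (cmat N) →
  ∀ x : ℂ, (Helper90Frey.rts (cmat N).det x).card = s.deg / s.v → ∃ W : ℂ → Fin r → ℂ,
    (∀ y ∈ Helper90Frey.rts (cmat N).det x, W y ≠ 0 ∧ ∀ i j,
      Helper90Frey.val ((cmat N).adjugate i j) x y = W y i * W y j) ∧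
    ∀ q q' : Vec r, kernel N q q' x = ∑ y ∈ Helper90Frey.rts (cmat N).det x,
      (∑ i, Helper90Frey.val (cpx (q i)) x y * W y i) *
        star (∑ i, Helper90Frey.val (cpx (q' i)) x y * W y i) /
          ((‖Helper90Frey.val (pderiv 1 (cmat N).det) x y‖ ^ 2 : ℝ) : ℂ)

/-- MES (90 lines). Proof: `Reduced` gives `x` with `deg / v` roots, GFI the finiteness. On the open
set of the good points (`Lead.isOpen_card`) `kernel N q q'` is
`x ↦ ∑ y ∈ rts, form N q q' ![x, y] / ‖F_y‖ ^ 2`, continuous at every good point by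
`Lead.continuousAt_sum` (the function of `(x, y)` is continuous where `hs (adj N ![x, y]) ≠ 0` and
`F_y ≠ 0`; the entries are polynomials); compare `Lead.aestronglyMeasurable` in
`Helper90_Frey/Kernel.lean`. Uses LEA GFI KER RK1. -/
def MesStmt : Prop := ∀ (r : ℕ) (s : Shape r) (N : Mat r), s.Good → Shaped s (cmat N) →
  Reduced s N → {x : ℂ | (Helper90Frey.rts (cmat N).det x).card ≠ s.deg / s.v}.Finite ∧
    ∀ q q' : Vec r, AEStronglyMeasurable (kernel N q q') volume

/-- HSM (90 lines). Proof: by KER, almost everywhere `kernel N q q` is real and nonnegative,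
`‖kernel N q q'‖ ≤ (kernel N q q + kernel N q' q').re / 2` and
`kernel N (q + q') (q + q')` has norm at most `2 * ‖kernel N q q‖ + 2 * ‖kernel N q' q'‖`; so with
MES (`Integrable.mono'`) both items follow; the degree conditions are stable under sums and
integral multiples; `kernel N 0 0 = 0`. Uses KER MES. -/
def HsmStmt : Prop := ∀ (r : ℕ) (s : Shape r) (N : Mat r), s.Good → Shaped s (cmat N) →
  Reduced s N → (∀ q ∈ Hol s N, ∀ q' ∈ Hol s N, Integrable (kernel N q q')) ∧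
    ∃ S : Submodule ℤ (Vec r), ∀ q, q ∈ S ↔ q ∈ Hol s N

/-- ZBA (70 lines). Proof: the vectors with the degree condition form a free module with a finite
basis (the monomials; or embed it in `Fin r → (finite set of exponents) → ℤ`), of rank at most
`C = r * (number of the exponents with both entries at most deg + ∑ D)`; its submodules are free of
smaller rank (`Submodule.basisOfPid`, `Module.finrank` of a submodule). -/
def ZbaStmt : Prop := ∀ (r : ℕ) (s : Shape r), s.Good → ∃ C : ℝ, ∀ S : Submodule ℤ (Vec r),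
  (∀ q ∈ S, ∀ i, ∀ e ∈ (q i).support,
    2 * (s.u * (e 0 + 1) + s.v * (e 1 + 1)) < s.deg + s.D i) →
  ∃ (n : ℕ) (bas : Fin n → Vec r), (n : ℝ) ≤ C ∧ LinearIndependent ℤ bas ∧
    Submodule.span ℤ (Set.range bas) = S

/-- DET (120 lines). Proof: let `P` be the complex matrix of `Bᵀ * B`. Then
`(star v ⬝ᵥ (P *ᵥ v)).re = ∑_ι ‖∑_j star (v j) * B ι j‖ ^ 2 ≤ K * (L + 1) * (star v ⬝ᵥ (G *ᵥ v)).re`.
`P` is positive definite: `Bᵀ * B` has nonzero determinant over the integers (if `B * a = 0` with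
`a` rational, clear denominators), and so its determinant is an integer at least `1`. So `G` is
positive definite. Write `P = Tᴴ * T` with `T` invertible; `G' = T⁻ᴴ * G * T⁻¹` has the form at
least `(K * (L + 1))⁻¹ * ‖v‖ ^ 2`, so `Helper90Frey.det_lower` gives
`(K * (L + 1))⁻¹ ^ n ≤ G'.det.re = G.det.re / P.det.re`. -/
def DetStmt : Prop := ∀ (n L : ℕ) (G : Matrix (Fin n) (Fin n) ℂ) (B : Fin L → Fin n → ℤ)
  (K : ℝ), 0 < K → G.IsHermitian →
  (∀ a : Fin n → ℤ, (∀ ι, ∑ j, a j * B ι j = 0) → a = 0) →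
  (∀ (v : Fin n → ℂ) (ι : Fin L),
    ‖∑ j, star (v j) * ((B ι j : ℤ) : ℂ)‖ ^ 2 ≤ K * (star v ⬝ᵥ (G *ᵥ v)).re) →
  G.PosDef ∧ 1 ≤ (K * (L + 1)) ^ n * G.det.re

/-- HER (30 lines). Proof: `form N q' q z = star (form N q q' z)`, so
`kernel N q' q x = star (kernel N q q' x)` (`finsum_mem`, `star` is an additive equivalence; the
denominators are real), and `integral_conj`. -/
def HerStmt : Prop := ∀ (r n : ℕ) (N : Mat r) (bas : Fin n → Vec r), (gram N bas).IsHermitian

/-- a complex combination -/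
noncomputable def comb {r n : ℕ} (bas : Fin n → Vec r) (v : Fin n → ℂ) : CVec r :=
  fun i => ∑ j, C (star (v j)) * cpx (bas j i)

/-- the integrand of the quadratic form -/
noncomputable def qf {r n : ℕ} (N : Mat r) (bas : Fin n → Vec r) (v : Fin n → ℂ) (x : ℂ) : ℝ :=
  (∑ k, ∑ l, star (v k) * kernel N (bas k) (bas l) x * v l).re

/-- QFI (90 lines). Proof: linearity of the integral (HSM); at a good point KER and
`∑_k star (v k) * (∑_i val (cpx (bas k i)) * w i) = ∑_i val (comb bas v i) * w i`. Uses KER HSM. -/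
def QfiStmt : Prop := ∀ (r : ℕ) (s : Shape r) (N : Mat r), s.Good → Shaped s (cmat N) →
  Reduced s N → ∀ (n : ℕ) (bas : Fin n → Vec r), (∀ j, bas j ∈ Hol s N) → ∀ v : Fin n → ℂ,
    Integrable (qf N bas v) ∧ ∫ x, qf N bas v x = (star v ⬝ᵥ (gram N bas *ᵥ v)).re ∧
    ∀ x : ℂ, (Helper90Frey.rts (cmat N).det x).card = s.deg / s.v → ∃ W : ℂ → Fin r → ℂ,
      (∀ y ∈ Helper90Frey.rts (cmat N).det x, ∀ i j,
        Helper90Frey.val ((cmat N).adjugate i j) x y = W y i * W y j) ∧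
      qf N bas v x = ∑ y ∈ Helper90Frey.rts (cmat N).det x,
        ‖∑ j, Helper90Frey.val (comb bas v j) x y * W y j‖ ^ 2 /
          ‖Helper90Frey.val (pderiv 1 (cmat N).det) x y‖ ^ 2

/-- LOW (130 lines): the coefficients from the Gram matrix. Proof: let `e = (e 0, e 1)`,
`k = e 1`, `q = comb bas v`; the coefficient in question is `coeff e (q i)`. The coefficient of
`Y ^ k` in `slice (q i) x` is `∑_a coeff (a, k) (q i) * x ^ a` (`a ≤ deg + D i`); for almost all
`x` with `‖x‖ ≤ ρ = b ^ α` (MES: the bad points are finitely many) EXT and QFI bound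
`‖(slice (q i) x).coeff k‖ ^ 2 * (b ^ (β * (k + 1))) ^ 2` by
`C * (Q / θ) ^ c * (b ^ (wt + m i)) ^ 2 * qf N bas v x`. Integrate over the disc
(`Helper90Frey.disc_lower_scaled`, `qf` is almost everywhere nonnegative):
`‖coeff e (q i)‖ ^ 2 * (b ^ (α * (e 0 + 1))) ^ 2 * (b ^ (β * (e 1 + 1))) ^ 2 ≤
C' * (Q / θ) ^ c * (b ^ (wt + m i)) ^ 2 * (star v ⬝ᵥ (gram N bas *ᵥ v)).re`, and
`wt + m i - α * (e 0 + 1) - β * (e 1 + 1) ≤ τ`, `1 ≤ b`. Uses QFI EXT MES. -/
def LowStmt : Prop := ∀ (r : ℕ) (s : Shape r), s.Good → ∃ (C : ℝ) (c : ℕ), 1 ≤ C ∧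
  ∀ (N : Mat r) (b Q θ τ : ℝ), Shaped s (cmat N) → Sized s (cmat N) b Q θ → Reduced s N →
  (∀ i, (s.wt : ℝ) + s.m i - s.α - s.β ≤ τ) →
  ∀ (n : ℕ) (bas : Fin n → Vec r), (∀ j, bas j ∈ Hol s N) → ∀ (v : Fin n → ℂ) (i : Fin r)
    (e : Fin 2 →₀ ℕ), ‖∑ j, star (v j) * ((coeff e (bas j i) : ℤ) : ℂ)‖ ^ 2 ≤
      C * (Q / θ) ^ c * b ^ (2 * τ) * (star v ⬝ᵥ (gram N bas *ᵥ v)).re

/-- GMN (120 lines): **the Gram matrix and the height of one member.** Proof: `Shaped s (cmat N)`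
(supports of the entries do not change, `topE` coefficient not zero because `0 < θ`),
`Sized s (cmat N) b Q θ` (`coeff_cpx`, `Complex.norm_intCast`). HSM and ZBA give the basis
(`IsZBasis`), HER that the Gram matrix is Hermitian. Enumerate the pairs `(i, e)` with `e 0, e 1` at
most `deg + ∑ D` by `Fin L` (`L` depends on `s` only) and let `B ι j` be the coefficients of
`bas j`: the basis is linearly independent, so DET applies with `K = C * (Q / θ) ^ c * b ^ (2 * τ)`
(LOW), and `0 ≤ n * log (K * (L + 1)) + log det`, that is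
`hW ≤ n / 2 * (log (C * (L + 1)) + c * (log Q - log θ) + 2 * τ * log b)`, and `n` is at most the
constant of ZBA. Uses LOW DET HER HSM ZBA. -/
def GmnStmt : Prop := ∀ (r : ℕ) (s : Shape r), s.Good → ∃ C : ℝ, ∀ N : Mat r,
  (∀ i j, N i j = N j i) →
  (∀ i j, ∀ e ∈ (N i j).support, 2 * (s.u * e 0 + s.v * e 1) ≤ s.D i + s.D j) →
  Reduced s N → ∀ b Q θ τ : ℝ, 1 ≤ b → 1 ≤ Q → 0 < θ → θ ≤ 1 →
  (∀ i j e, |((coeff e (N i j) : ℤ) : ℝ)| * b ^ (s.α * e 0 + s.β * e 1) ≤
    Q * b ^ (s.m i + s.m j)) →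
  θ * b ^ (2 * s.wt) ≤ |((coeff (topE s) (F N) : ℤ) : ℝ)| * b ^ (s.β * (s.deg / s.v)) →
  (∀ i, (s.wt : ℝ) + s.m i - s.α - s.β ≤ τ) →
  ∃ (n : ℕ) (bas : Fin n → Vec r), (n : ℝ) ≤ C ∧ IsZBasis bas (Hol s N) ∧
    (∀ i j, Integrable (kernel N (bas i) (bas j))) ∧ (gram N bas).PosDef ∧
    hW N bas ≤ n * (τ * Real.log b) + C * (Real.log Q - Real.log θ) + C

end Pool.Agent.EVF
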