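import Pool.Agent.EVF.StmtsG

/-!
# Squad EVF, part H (helper40, helper80): sharp weights

Rows: LO2 DE2 GM2.
-/

namespace Pool.Agent.EVF

open MvPolynomial MeasureTheory Matrix
open scoped ComplexOrder

/-- LO2. Proof: as LOW, without the last step. Uses QFI EXT MES. -/
def Lo2Stmt : Prop := ∀ (r : ℕ) (s : Shape r), s.Good → ∃ (C : ℝ) (c : ℕ), 1 ≤ C ∧
  ∀ (N : Mat r) (b Q θ : ℝ), Shaped s (cmat N) → Sized s (cmat N) b Q θ → Reduced s N →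
  ∀ (n : ℕ) (bas : Fin n → Vec r), (∀ j, bas j ∈ Hol s N) → ∀ (v : Fin n → ℂ) (i : Fin r)
    (e : Fin 2 →₀ ℕ), ‖∑ j, star (v j) * ((coeff e (bas j i) : ℤ) : ℂ)‖ ^ 2 *
        (b ^ (s.α * (e 0 + 1) + s.β * (e 1 + 1))) ^ 2 ≤
      C * (Q / θ) ^ c * (b ^ (s.wt + s.m i)) ^ 2 * (star v ⬝ᵥ (gram N bas *ᵥ v)).re

/-- DE2. Proof: the matrix `B` has `n` independent rows; let `I` be the set of their indices and
`B_I` the square matrix, with `1 ≤ |det B_I|`. The form of `G` is at least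
`(K * (L + 1))⁻¹ * ∑_(ι ∈ I) w ι * ‖∑_j star (v j) * B ι j‖ ^ 2`, the form of
`P = (diag (√w) * B_I)ᴴ * (diag (√w) * B_I)`; so `G` is positive definite and
`(K * (L + 1)) ^ n * det G ≥ det P = (∏_I w) * (det B_I) ^ 2` (see `H40.det_compare` in
`Helper40_EVF/DET.lean`, or apply `Helper90Frey.det_lower_scaled` after a change of basis). -/
def De2Stmt : Prop := ∀ (n L : ℕ) (G : Matrix (Fin n) (Fin n) ℂ) (B : Fin L → Fin n → ℤ)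
  (w : Fin L → ℝ) (K : ℝ), 0 < K → (∀ ι, 0 < w ι) → G.IsHermitian →
  (∀ a : Fin n → ℤ, (∀ ι, ∑ j, a j * B ι j = 0) → a = 0) →
  (∀ (v : Fin n → ℂ) (ι : Fin L),
    ‖∑ j, star (v j) * ((B ι j : ℤ) : ℂ)‖ ^ 2 * w ι ≤ K * (star v ⬝ᵥ (G *ᵥ v)).re) →
  G.PosDef ∧ ∃ I : Finset (Fin L), I.card = n ∧
    ∏ ι ∈ I, w ι ≤ (K * (L + 1)) ^ n * G.det.re

/-- GM2: **the Gram matrix and the height of one member, with sharp weights.** Proof: as GMN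
(`Helper40_EVF/GMN.lean`), with LO2 and DE2: `Fin L` enumerates the slots (the pairs `(i, e)` with
`2 * (u * (e 0 + 1) + v * (e 1 + 1)) < deg + D i`, finitely many), and
`w ι = (b ^ (α * (e 0 + 1) + β * (e 1 + 1)) / b ^ (wt + m i)) ^ 2`, `K = C * (Q / θ) ^ c`; then
`∑_I log w = - 2 * (∑_I omega) * log b`. Uses LO2 DE2 HER HSM ZBA. -/
def Gm2Stmt : Prop := ∀ (r : ℕ) (s : Shape r), s.Good → ∃ C : ℝ, ∀ N : Mat r,
  (∀ i j, N i j = N j i) →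
  (∀ i j, ∀ e ∈ (N i j).support, 2 * (s.u * e 0 + s.v * e 1) ≤ s.D i + s.D j) →
  Reduced s N → ∀ b Q θ : ℝ, 1 ≤ b → 1 ≤ Q → 0 < θ → θ ≤ 1 →
  (∀ i j e, |((coeff e (N i j) : ℤ) : ℝ)| * b ^ (s.α * e 0 + s.β * e 1) ≤
    Q * b ^ (s.m i + s.m j)) →
  θ * b ^ (2 * s.wt) ≤ |((coeff (topE s) (F N) : ℤ) : ℝ)| * b ^ (s.β * (s.deg / s.v)) →
  ∃ (n : ℕ) (bas : Fin n → Vec r) (I : Finset (Fin r × ℕ × ℕ)), (n : ℝ) ≤ C ∧ I.card = n ∧
    (∀ x ∈ I, s.Slot x) ∧ IsZBasis bas (Hol s N) ∧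
    (∀ i j, Integrable (kernel N (bas i) (bas j))) ∧ (gram N bas).PosDef ∧
    hW N bas ≤ (∑ x ∈ I, s.omega x) * Real.log b + C * (Real.log Q - Real.log θ) + C

end Pool.Agent.EVF
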