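import Pool.Agent.EVF.Defs
import Pool.Agent.Helper94_Rad.Final

/-!
# Squad EVF, part R (helper40): the radical of the values of binary forms

Everything is about coprime integers `a, b` with `|a|, |b| ≤ H`. The lemmas of `Helper94_Rad`
(`RAD.DomStmt`, `RtcStmt`, `UctStmt`, `NctStmt`, `NlbStmt`, `PwrStmt`, all proved, see
`Pool.Agent.Helper94_Rad.Final` for the names of the proofs) are available.
-/

namespace Pool.Agent.EVF

open MvPolynomial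
open Helper5Frey (partRad)

/-- value of a form in two variables -/
noncomputable def bv (φ : MvPolynomial (Fin 2) ℤ) (a b : ℤ) : ℤ := eval ![a, b] φ

/-- coprime pairs in the square -/
def PB (H : ℕ) : Set (ℤ × ℤ) := {x | IsCoprime x.1 x.2 ∧ |x.1| ≤ (H : ℤ) ∧ |x.2| ≤ (H : ℤ)}

/-- all pairs in the square -/
def SB (H : ℕ) : Set (ℤ × ℤ) := {x | |x.1| ≤ (H : ℤ) ∧ |x.2| ≤ (H : ℤ)}

/-- the part of `m` composed of the primes dividing `K` -/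
def kPart (K m : ℕ) : ℕ := ∏ p ∈ m.primeFactors.filter (fun p => p ∣ K), p ^ m.factorization p

/-- For `n` prime to `K` the coprime solutions of `n ∣ φ(a, b)` lie in at most `s ^ ω(n)` classes
`a ≡ t b` modulo `n`. -/
def Cls (φ : MvPolynomial (Fin 2) ℤ) (s K : ℕ) : Prop :=
  ∀ n : ℕ, 1 ≤ n → Nat.Coprime n K → ∃ S : Finset ℤ, S.card ≤ s ^ n.primeFactors.card ∧
    ∀ a b : ℤ, IsCoprime a b → (n : ℤ) ∣ bv φ a b → ∃ t ∈ S, (n : ℤ) ∣ a - t * b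

/-- ROO. Proof: `R(T) = φ(T, 1)` has degree `s`, leading coefficient `φ(1, 0)`, and is separable
over `ℚ` (it is irreducible); take `K = |φ(1, 0) * resultant(R, R')|` (or `K` from a Bezout
identity `U R + V R' = K`), so that `RAD.Loc R K`, and use `RAD.RtcStmt`. If a prime `p ∣ n`
divides `b` then it divides `φ(1, 0) a ^ s`, hence `a`; so `b` is invertible modulo `n` and
`t ≡ a / b` is a root of `R` modulo `n`. -/
def RooStmt : Prop :=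
  ∀ (φ : MvPolynomial (Fin 2) ℤ) (s : ℕ), φ.IsHomogeneous s → Irreducible φ → bv φ 1 0 ≠ 0 →
    1 ≤ s → ∃ K : ℕ, 1 ≤ K ∧ Cls φ s K

/-- PRI: primitive points of a lattice `a ≡ t b (mod n)`. Proof: `b = 0` forces `a = ± 1`. For
`B ≤ |b| < 2 B` (dyadic, at most `1 + log₂ H` values of `B`) and `b > 0` the fractions `a / b` are
distinct, lie in `[-H / B, H / B]`, and two of them differ by `|a b' - a' b| / (b b') ≥
n / (4 B ^ 2)` since `n ∣ a b' - a' b ≠ 0`: at most `8 H B / n + 1` of them. -/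
def PriStmt : Prop :=
  ∃ C : ℝ, 0 < C ∧ ∀ (n : ℕ) (t : ℤ) (H : ℕ), 1 ≤ n → 1 ≤ H →
    ({x : ℤ × ℤ | x ∈ PB H ∧ (n : ℤ) ∣ x.1 - t * x.2}.ncard : ℝ) ≤
      C * ((H : ℝ) ^ 2 / n + 1 + Real.log H)

/-- SQF: no square divisors in a long range. Proof: union over `d` in the range and over the at
most `s ^ ω(d) ≤ C d ^ ε` (`RAD.DomStmt`, `ω(d ^ 2) = ω(d)`) classes modulo `d ^ 2`, each with at
most `C (H ^ 2 / d ^ 2 + 1 + log H)` points (PRI); take `ε = δ / 8`. -/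
def SqfStmt : Prop :=
  ∀ (φ : MvPolynomial (Fin 2) ℤ) (s K : ℕ), 1 ≤ s → 1 ≤ K → Cls φ s K →
    ∀ δ : ℝ, 0 < δ → δ < 1 → ∃ C η : ℝ, 0 < η ∧ ∀ H : ℕ, 1 ≤ H →
      ({x : ℤ × ℤ | x ∈ PB H ∧ ∃ d : ℕ, (H : ℝ) ^ δ < d ∧ (d : ℝ) ≤ (H : ℝ) ^ (2 - δ) ∧
        Nat.Coprime d K ∧ (d : ℤ) ^ 2 ∣ bv φ x.1 x.2}.ncard : ℝ) ≤ C * (H : ℝ) ^ (2 - η)

/-- SMV: small values are rare. Proof: for fixed `b` the polynomial `R = φ(T, b)` has degree `s`
and leading coefficient `φ(1, 0)`; by `RAD.NlbStmt` and `RAD.NctStmt` with `ρ = H ^ (1 - ε / s)`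
at most `s (2 ρ + 1)` values of `a` are bad (`ε ≤ s` without loss of generality). -/
def SmvStmt : Prop :=
  ∀ (φ : MvPolynomial (Fin 2) ℤ) (s : ℕ), φ.IsHomogeneous s → bv φ 1 0 ≠ 0 → 1 ≤ s →
    ∀ ε : ℝ, 0 < ε → ∃ C η : ℝ, 0 < η ∧ ∀ H : ℕ, 1 ≤ H →
      ({x : ℤ × ℤ | x ∈ SB H ∧ |(bv φ x.1 x.2 : ℝ)| < (H : ℝ) ^ ((s : ℝ) - ε)}.ncard : ℝ) ≤
        C * (H : ℝ) ^ (2 - η)

/-- FRM: the same for every nonzero form. Proof: `φ = b ^ j φ'` with `φ'(1, 0) ≠ 0`; few pairs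
have `|b| < H ^ (1 - ε')`; SMV for `φ'` (for `s - j = 0` it is a nonzero constant). -/
def FrmStmt : Prop :=
  ∀ (φ : MvPolynomial (Fin 2) ℤ) (s : ℕ), φ.IsHomogeneous s → φ ≠ 0 →
    ∀ ε : ℝ, 0 < ε → ∃ C η : ℝ, 0 < η ∧ ∀ H : ℕ, 1 ≤ H →
      ({x : ℤ × ℤ | x ∈ SB H ∧ |(bv φ x.1 x.2 : ℝ)| < (H : ℝ) ^ ((s : ℝ) - ε)}.ncard : ℝ) ≤
        C * (H : ℝ) ^ (2 - η)

/-- KPT: the part of the value composed of the primes of `K` is small. Proof: otherwise a prime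
power `p ^ v` with `p ∣ K`, `p ^ v > H ^ (ε / ω(K))`, divides the value exactly; so `u = p ^ j`
divides it, where `j` is minimal with `p ^ j > H ^ (ε / ω(K))` (one `u` for each `p`). For fixed
`b` apply `RAD.UctStmt` to `R = φ(T, b)` with `L` a small power of `H`. -/
def KptStmt : Prop :=
  ∀ (φ : MvPolynomial (Fin 2) ℤ) (s K : ℕ), φ.IsHomogeneous s → bv φ 1 0 ≠ 0 → 1 ≤ s → 1 ≤ K →
    ∀ ε : ℝ, 0 < ε → ∃ C η : ℝ, 0 < η ∧ ∀ H : ℕ, 1 ≤ H →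
      ({x : ℤ × ℤ | x ∈ SB H ∧ bv φ x.1 x.2 ≠ 0 ∧
        (H : ℝ) ^ ε < kPart K (bv φ x.1 x.2).natAbs}.ncard : ℝ) ≤ C * (H : ℝ) ^ (2 - η)

/-- SHB: the shape of a value with a small radical. Proof (`δ = ε / 20`): let `m'` be the part of
`m` prime to `K` and `Q = ∏ p ^ ⌊e_p / 2⌋` for `m'`; a divisor of `Q` is at most `H ^ δ` or larger
than `H ^ (2 - δ)`. The primes `≤ H ^ δ` of `Q` contribute at most `H ^ δ` to `Q` (otherwise
multiply them one by one to get a divisor in `(H ^ δ, H ^ (2 δ)]`). No prime of `Q` beyond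
`H ^ (2 - δ)`: then `partRad ≥ m' / Q ^ 2 ≥ H ^ (s - 4 δ)`, contradiction. Two of them: `partRad >
H ^ (4 - 2 δ)`, contradiction. Exactly one, `q`, with exponent `k`: `w = m' / q ^ k` has
`partRad ≥ w H ^ (-2 δ) H ^ (2 - δ)`, so `w ≤ H ^ (2 - ε / 2)`. -/
def ShbStmt : Prop :=
  ∀ (s K : ℕ) (ε : ℝ), 1 ≤ s → 1 ≤ K → 0 < ε → ε < 1 → ∃ H₀ : ℕ, ∀ H : ℕ, H₀ ≤ H →
    ∀ m : ℕ, (m : ℝ) ≤ (H : ℝ) ^ (s + 1) → (H : ℝ) ^ ((s : ℝ) - ε / 20) ≤ m →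
      (kPart K m : ℝ) ≤ (H : ℝ) ^ (ε / 20) →
      (∀ d : ℕ, (H : ℝ) ^ (ε / 20) < d → (d : ℝ) ≤ (H : ℝ) ^ (2 - ε / 20) → Nat.Coprime d K →
        ¬ d ^ 2 ∣ m) →
      (partRad K m : ℝ) ≤ (H : ℝ) ^ (((min s 4 : ℕ) : ℝ) - ε) →
      ∃ w q k : ℕ, 1 ≤ w ∧ Nat.Coprime w K ∧ (w : ℝ) ≤ (H : ℝ) ^ (2 - ε / 2) ∧
        (H : ℝ) ^ (2 - ε / 20) < q ∧ 2 ≤ k ∧ k ≤ s + 1 ∧ m = kPart K m * w * q ^ k

/-- LIN: values which are a fixed number times a power, in a lattice of index `w ≤ H ^ (2 - η)`.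
Proof: let `e` be a shortest (sup norm) nonzero vector of `Λ = {a ≡ t b (mod w)}`; `|e| ≤ √w`
(pigeonhole). For `P ∈ Λ` the determinant `det(e, P)` is a multiple `l w` of `w`, `|l| ≤
2 |e| H / w`. `l = 0`: `P = ± e` at most (coprime, and `P` is a multiple of `e`). For `l ≠ 0` fix
one point `P₀` of the box on the line; the others are `P₀ + c e`, `c` an integer (minimality of
`e`), `|c| ≤ L := 2 H / |e| ≥ 2 H ^ (η / 2)`. `R(c) = φ(P₀ + c e)` has degree `s` (leading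
coefficient `φ(e) ≠ 0`), coefficients at most `L ^ B` and is separable (a double root would be a
multiple zero of `φ`: Euler). `RAD.PwrStmt` (`v = 1`) and `RAD.NctStmt` leave `C L ^ (1 - δ)`
values of `c`. Sum over `l`. -/
def LinStmt : Prop :=
  ∀ (φ : MvPolynomial (Fin 2) ℤ) (s : ℕ), φ.IsHomogeneous s → Irreducible φ → 2 ≤ s →
    ∀ η : ℝ, 0 < η → η < 1 → ∃ C η' : ℝ, 0 < η' ∧ ∀ H : ℕ, 1 ≤ H → ∀ (w : ℕ) (t c : ℤ) (k : ℕ),
      1 ≤ w → (w : ℝ) ≤ (H : ℝ) ^ (2 - η) → c ≠ 0 → 2 ≤ k → k ≤ s + 1 →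
      ({x : ℤ × ℤ | x ∈ PB H ∧ (w : ℤ) ∣ x.1 - t * x.2 ∧
        ∃ q : ℕ, 1 ≤ q ∧ bv φ x.1 x.2 = c * (q : ℤ) ^ k}.ncard : ℝ) ≤
          C * ((H : ℝ) ^ 2 / w * (H : ℝ) ^ (-η') + 1)

/-- SEP: the restriction of an irreducible form to a line not through the origin is separable.
Proof: over `ℂ`, at a double root `v = P + c e ≠ 0` (`det(P, e) ≠ 0`) the form and its derivative
in the direction `e` vanish; by Euler's identity also the derivative in the direction `v`, so the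
gradient vanishes at `v`, and `φ` would be divisible by the square of a linear form over `ℂ`,
impossible for an irreducible `φ` (the polynomial `φ(T, 1)` or `φ(1, T)` is separable). -/
def SepStmt : Prop :=
  ∀ (φ : MvPolynomial (Fin 2) ℤ) (s : ℕ), φ.IsHomogeneous s → Irreducible φ → 1 ≤ s →
    ∀ a b e f : ℤ, a * f - b * e ≠ 0 → bv φ e f ≠ 0 →
      ∃ R : Polynomial ℤ, R.natDegree = s ∧ (R.map (Int.castRingHom ℚ)).Separable ∧
        R.leadingCoeff = bv φ e f ∧ ∀ c : ℤ, R.eval c = bv φ (a + c * e) (b + c * f)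

/-- BRL: the radical lemma for one irreducible form. Proof: if `φ(1, 0) = 0` then `φ = ± b`, swap
the variables. Otherwise replace `K` by a multiple with `Cls φ s K` (ROO). Remove the exceptional
sets of SMV (with `ε / 20`), KPT (with `δ'` small compared with the `η'` of LIN for `η = ε / 2`,
`δ' ≤ ε / 20`), SQF (`δ = ε / 20`). By SHB the remaining bad pairs have `φ(a, b) = ± u w q ^ k`
with `u = kPart ≤ H ^ δ'`, `w ≤ H ^ (2 - ε / 2)` prime to `K` and `q > H ^ (2 - δ)`; for `s = 1`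
this contradicts `q ^ 2 ≤ |φ| ≤ C H`. For `s ≥ 2` sum LIN over `u`, the sign, `k`, `w` and the at
most `s ^ ω(w)` classes. (`ε < 1` without loss of generality; small `H` go into `C`.) -/
def BrlStmt : Prop :=
  ∀ (φ : MvPolynomial (Fin 2) ℤ) (s K : ℕ), φ.IsHomogeneous s → Irreducible φ → 1 ≤ s → 1 ≤ K →
    ∀ ε : ℝ, 0 < ε → ∃ C η : ℝ, 0 < η ∧ ∀ H : ℕ, 1 ≤ H →
      ({x : ℤ × ℤ | x ∈ PB H ∧ (bv φ x.1 x.2 = 0 ∨
        (partRad K (bv φ x.1 x.2).natAbs : ℝ) ≤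
          (H : ℝ) ^ (((min s 4 : ℕ) : ℝ) - ε))}.ncard : ℝ) ≤ C * (H : ℝ) ^ (2 - η)

/-- RS2: common prime divisors of two forms at coprime pairs. Proof: resultant (or Bezout
identities `U φ + V ψ = R a ^ N`, `U' φ + V' ψ = R b ^ N`, from `φ(T, 1), ψ(T, 1)` and
`φ(1, T), ψ(1, T)` coprime over `ℚ`). -/
def Rs2Stmt : Prop :=
  ∀ (φ ψ : MvPolynomial (Fin 2) ℤ) (s s' : ℕ), φ.IsHomogeneous s → ψ.IsHomogeneous s' →
    Irreducible φ → Irreducible ψ → 1 ≤ s → 1 ≤ s' → ¬ Associated φ ψ →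
      ∃ R : ℕ, 1 ≤ R ∧ ∀ a b : ℤ, IsCoprime a b → ∀ p : ℕ, p.Prime → (p : ℤ) ∣ bv φ a b →
        (p : ℤ) ∣ bv ψ a b → p ∣ R

/-- MRL: the radical lemma for several forms. Proof: BRL for each form with `K` replaced by a
common multiple `K'` of `K` and the numbers of RS2; outside `K'` the values are coprime, so the
radical of the product is the product of the radicals (`partRad K' ≤ partRad K`). -/
def MrlStmt : Prop :=
  ∀ (m : ℕ) (φ : Fin m → MvPolynomial (Fin 2) ℤ) (d : Fin m → ℕ) (K : ℕ), 1 ≤ K →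
    (∀ j, (φ j).IsHomogeneous (d j) ∧ Irreducible (φ j) ∧ 1 ≤ d j) →
    (∀ i j, i ≠ j → ¬ Associated (φ i) (φ j)) →
    ∀ ε : ℝ, 0 < ε → ∃ C η : ℝ, 0 < η ∧ ∀ H : ℕ, 1 ≤ H →
      ({x : ℤ × ℤ | x ∈ PB H ∧ ((∏ j, bv (φ j) x.1 x.2) = 0 ∨
        (partRad K (∏ j, bv (φ j) x.1 x.2).natAbs : ℝ) ≤
          (H : ℝ) ^ (((∑ j, min (d j) 4 : ℕ) : ℝ) - ε))}.ncard : ℝ) ≤ C * (H : ℝ) ^ (2 - η)

end Pool.Agent.EVF
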